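import Pool.Agent.Helper45.SE.Side

/-!
Construction of a full transversal from a minimal crossing element and a system of picks.
-/

set_option autoImplicit false
set_option linter.all false

open Finset Module

namespace Pool.Agent.Helper45.SE

section
variable {V : Type*} [Fintype V] [DecidableEq V]

theorem ind {L : Submodule F2 (V → K4)} {a b z y : V → K4} {q w : V} (h : Pr L a b z q w y)
    (v : V) : om (y v) (a v) = (if v = q then 1 else 0) + (if v = w then 1 else 0) := by
  have hne := h.ne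
  by_cases e1 : v = q
  · subst e1
    rw [(h.2.2.2.2 v).2 (Or.inl rfl), if_pos rfl, if_neg hne]; decide
  · by_cases e2 : v = w
    · subst e2
      rw [(h.2.2.2.2 v).2 (Or.inr rfl), if_neg e1, if_pos rfl]; decide
    · rw [if_neg e1, if_neg e2]
      exact (f2_ne_one _).1 fun h3 => ((h.2.2.2.2 v).1 h3).elim e1 e2

theorem om_sum {ι : Type*} (s : Finset ι) (f : ι → V → K4) (v : V) (t : K4) :
    om ((∑ i ∈ s, f i) v) t = ∑ i ∈ s, om (f i v) t := by
  classical
  induction s using Finset.induction_on with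
  | empty => simp [om_zero_left]
  | insert i s hi ih =>
    rw [Finset.sum_insert hi, Finset.sum_insert hi, Pi.add_apply, om_add_left, ih]

/-- description of the cycles inside `Q` -/
theorem lemKQ {L : Submodule F2 (V → K4)} {a b : V → K4}
    (hi : ∀ x ∈ L, (∀ v, a v = b v → om (x v) (a v) = 0) ∨ (∀ v, a v = b v → om (x v) (a v) = 1))
    {z : V → K4} (hz : Mn L a b z) (E : Finset V) (Y : V → V → K4) (W : V → V)
    (hE : ∀ q ∈ E, Pr L a b z q (W q) (Y q)) (y : V → K4) (hy : y ∈ L)
    (hys : ∀ v, om (z v) (a v) = 0 → v ∉ E → om (y v) (a v) = 0) :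
    ∃ ε : F2, ∀ v, om (y v) (a v) =
      ε * om (z v) (a v) + ∑ q ∈ E, om (y q) (a q) * om (Y q v) (a v) := by
  set y1 : V → K4 := y + ∑ q ∈ E, om (y q) (a q) • Y q with hy1
  have hy1L : y1 ∈ L := by
    refine L.add_mem hy (Submodule.sum_mem _ fun q hq => L.smul_mem _ (mem_MM.1 (hE q hq).2.2.2.1).1)
  have h1 : ∀ v, om (y1 v) (a v) = om (y v) (a v) + ∑ q ∈ E, om (y q) (a q) * om (Y q v) (a v) := by
    intro v
    rw [hy1, Pi.add_apply, om_add_left, om_sum]
    congr 1
    exact Finset.sum_congr rfl fun q _ => by rw [Pi.smul_apply, om_smul_left]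
  have hvE : ∀ v ∈ E, ∑ q ∈ E, om (y q) (a q) * om (Y q v) (a v) = om (y v) (a v) := by
    intro v hv
    rw [Finset.sum_eq_single v]
    · rw [((hE v hv).2.2.2.2 v).2 (Or.inl rfl), mul_one]
    · intro q hq hqv
      rw [ind (hE q hq), if_neg (Ne.symm hqv), if_neg, add_zero, mul_zero]
      intro h
      have e1 := (hE q hq).2.1
      rw [← h, (hE v hv).1] at e1
      exact absurd e1 (by decide)
    · intro h; exact absurd hv h
  have hsub : sp a y1 ⊆ sp a z := by
    intro v hv
    rw [mem_sp] at hv ⊢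
    rw [h1] at hv
    rcases f2_cases (om (z v) (a v)) with h0 | h0
    · exfalso
      by_cases hvE' : v ∈ E
      · rw [hvE v hvE', f2_self] at hv
        exact absurd hv (by decide)
      · rw [hys v h0 hvE', Finset.sum_eq_zero, add_zero] at hv
        · exact absurd hv (by decide)
        · intro q hq
          rw [ind (hE q hq), if_neg, if_neg, add_zero, mul_zero]
          · rintro rfl
            have e1 := (hE q hq).2.1
            rw [h0] at e1
            exact absurd e1 (by decide)
          · rintro rfl; exact hvE' hq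
    · exact h0
  have hfin : ∃ ε : F2, ∀ v, om (y1 v) (a v) = ε * om (z v) (a v) := by
    rcases hi y1 hy1L with h | h
    · refine ⟨0, fun v => ?_⟩
      rw [zero_mul]
      by_contra h3
      have h3' := (f2_ne_zero _).1 h3
      have h4 := hz.1.add_MM (y := y1) ⟨hy1L, h⟩
      have h5 : sp a (z + y1) ⊆ sp a z := by
        intro u hu
        rw [mem_sp, Pi.add_apply, om_add_left] at hu
        by_cases e : u ∈ sp a y1
        · exact hsub e
        · rw [mem_sp] at e
          rw [(f2_ne_one _).1 e, add_zero] at hu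
          exact mem_sp.2 hu
      have h6 := hz.sub h4 h5
      have h7 : v ∈ sp a (z + y1) := by rw [h6]; exact hsub (mem_sp.2 h3')
      rw [mem_sp, Pi.add_apply, om_add_left, h3', mem_sp.1 (hsub (mem_sp.2 h3'))] at h7
      exact absurd h7 (by decide)
    · refine ⟨1, fun v => ?_⟩
      rw [one_mul]
      have h6 := hz.sub ⟨hy1L, h⟩ hsub
      rcases f2_cases (om (z v) (a v)) with h0 | h0
      · rw [h0]
        refine (f2_ne_one _).1 fun h7 => ?_
        have : v ∈ sp a z := by rw [← h6]; exact mem_sp.2 h7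
        rw [mem_sp, h0] at this
        exact absurd this (by decide)
      · rw [h0]
        have : v ∈ sp a y1 := by rw [h6]; exact mem_sp.2 h0
        exact mem_sp.1 this
  obtain ⟨ε, hε⟩ := hfin
  refine ⟨ε, fun v => ?_⟩
  rw [← hε v, h1 v, add_assoc, f2_self, add_zero]

/-- prescribing the first coordinate on `Q` -/
theorem lemAdj {L : Submodule F2 (V → K4)} (hL : Lag L) {a b : V → K4}
    (ha : ∀ v, a v ≠ 0)
    (hi : ∀ x ∈ L, (∀ v, a v = b v → om (x v) (a v) = 0) ∨ (∀ v, a v = b v → om (x v) (a v) = 1))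
    {z : V → K4} (hz : Mn L a b z) (E : Finset V) (Y : V → V → K4) (W : V → V)
    (hE : ∀ q ∈ E, Pr L a b z q (W q) (Y q)) (t : V → F2) (h1 : ∀ q ∈ E, t q = t (W q))
    (h2 : ∑ v, t v * om (z v) (a v) = 0) :
    ∃ x ∈ LT L a, ∀ v, (om (z v) (a v) = 1 ∨ v ∈ E) → x v = t v • a v := by
  classical
  let A : Submodule F2 (V → K4) :=
    { carrier := {x | ∀ v, om (x v) (a v) = 0 ∧ ((om (z v) (a v) = 1 ∨ v ∈ E) → x v = 0)}
      add_mem' := by
        intro x y hx hy v
        refine ⟨?_, fun h => ?_⟩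
        · show om (x v + y v) (a v) = 0
          rw [om_add_left, (hx v).1, (hy v).1, add_zero]
        · show x v + y v = 0
          rw [(hx v).2 h, (hy v).2 h, add_zero]
      zero_mem' := fun v => ⟨om_zero_left _, fun _ => rfl⟩
      smul_mem' := by
        intro c x hx v
        refine ⟨?_, fun h => ?_⟩
        · show om (c • x v) (a v) = 0
          rw [om_smul_left, (hx v).1, mul_zero]
        · show c • x v = 0
          rw [(hx v).2 h, smul_zero] }
  set g : V → K4 := fun v => if om (z v) (a v) = 1 ∨ v ∈ E then t v • a v else 0 with hg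
  obtain ⟨x, hx, w, hw, e⟩ := hL.split A g (by
    intro y hy hyA
    have hys : ∀ v, om (z v) (a v) = 0 → v ∉ E → om (y v) (a v) = 0 := by
      intro v h0 hvE
      have h3 : Om (Pi.single v (a v)) y = 0 := hyA _ (by
        intro u
        by_cases huv : u = v
        · subst huv
          rw [Pi.single_eq_same]
          refine ⟨om_self _, fun h => ?_⟩
          rcases h with h | h
          · rw [h0] at h; exact absurd h (by decide)
          · exact absurd h hvE
        · rw [Pi.single_eq_of_ne huv]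
          exact ⟨om_zero_left _, fun _ => rfl⟩)
      rw [Om_single] at h3
      rw [om_comm]; exact h3
    obtain ⟨ε, hε⟩ := lemKQ hi hz E Y W hE y hy hys
    have h3 : Om g y = ∑ v, t v * om (y v) (a v) := by
      unfold Om
      refine Finset.sum_congr rfl fun v _ => ?_
      by_cases hv : om (z v) (a v) = 1 ∨ v ∈ E
      · rw [hg]
        show om (if om (z v) (a v) = 1 ∨ v ∈ E then t v • a v else 0) (y v) = _
        rw [if_pos hv, om_smul_left, om_comm]
      · rw [hg]
        show om (if om (z v) (a v) = 1 ∨ v ∈ E then t v • a v else 0) (y v) = _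
        rw [if_neg hv, om_zero_left]
        push Not at hv
        rw [hys v ((f2_ne_one _).1 hv.1) hv.2, mul_zero]
    rw [h3]
    have h4 : ∀ v, t v * om (y v) (a v) = ε * (t v * om (z v) (a v)) +
        ∑ q ∈ E, om (y q) (a q) * (t v * om (Y q v) (a v)) := by
      intro v
      rw [hε v, mul_add, Finset.mul_sum]
      congr 1
      · ring
      · exact Finset.sum_congr rfl fun q _ => by ring
    rw [Finset.sum_congr rfl fun v _ => h4 v, Finset.sum_add_distrib, ← Finset.mul_sum, h2,
      mul_zero, zero_add, Finset.sum_comm]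
    refine Finset.sum_eq_zero fun q hq => ?_
    rw [← Finset.mul_sum]
    have h5 : ∑ v, t v * om (Y q v) (a v) = t q + t (W q) := by
      have : ∀ v, t v * om (Y q v) (a v) = (if v = q then t v else 0) + (if v = W q then t v else 0) := by
        intro v
        rw [ind (hE q hq), mul_add, mul_ite, mul_ite, mul_one, mul_zero]
      rw [Finset.sum_congr rfl fun v _ => this v, Finset.sum_add_distrib, Finset.sum_ite_eq',
        Finset.sum_ite_eq', if_pos (Finset.mem_univ _), if_pos (Finset.mem_univ _)]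
    rw [h5, h1 q hq, f2_self, mul_zero])
  have hxw : ∀ v, x v = g v + w v := by
    intro v
    rw [← e]
    show x v = x v + w v + w v
    rw [add_assoc, k4_self, add_zero]
  refine ⟨x, mem_LT.2 ⟨hx, fun v => ?_⟩, fun v hv => ?_⟩
  · rw [hxw, om_add_left, (hw v).1, add_zero]
    show om (if om (z v) (a v) = 1 ∨ v ∈ E then t v • a v else 0) (a v) = 0
    split_ifs
    · rw [om_smul_left, om_self, mul_zero]
    · exact om_zero_left _
  · rw [hxw, (hw v).2 hv, add_zero]
    exact if_pos hv

/-- the transversal -/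
def TT (a b z z1 : V → K4) (E : Finset V) (v : V) : K4 :=
  if a v = b v then z1 v else if om (z v) (a v) = 1 ∨ v ∈ E then a v + b v else a v

/-- the crossing word -/
theorem lemZ {L : Submodule F2 (V → K4)} (hL : Lag L) {a b : V → K4}
    (ha : ∀ v, a v ≠ 0) (hb : ∀ v, b v ≠ 0) (hU : ∃ v, a v = b v)
    (hi : ∀ x ∈ L, (∀ v, a v = b v → om (x v) (a v) = 0) ∨ (∀ v, a v = b v → om (x v) (a v) = 1))
    {z : V → K4} (hz : Mn L a b z) (E : Finset V) (Y : V → V → K4) (W : V → V)
    (hE : ∀ q ∈ E, Pr L a b z q (W q) (Y q)) (hE1 : ∀ q ∈ E, be a b z (Y q) = 1) :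
    ∃ c ∈ LT L a, (∀ v, a v ≠ b v → om (z v) (a v) = 1 → om ((z + c) v) (b v) = 1) ∧
      (∀ v ∈ E, (z + c) v = 0) := by
  obtain ⟨u0, hu0⟩ := hU
  set τ : F2 := ∑ v, if a v = b v then 0 else (om (z v) (b v) + 1) * om (z v) (a v) with hτ
  have hEz : ∀ q ∈ E, om (z q) (b q) = om (z (W q)) (b (W q)) + 1 := by
    intro q hq
    have h := hE1 q hq
    rw [(hE q hq).be_eq hz.1] at h
    exact f2_add _ _ h
  obtain ⟨c, hc, hcv⟩ := lemAdj hL ha hi hz E Y W hE
    (fun v => if a v = b v then (if v = u0 then τ else 0) else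
      if om (z v) (a v) = 1 then om (z v) (b v) + 1 else om (z v) (b v)) (by
    intro q hq
    have h1 := (hE q hq).ab hz.1
    have h2 := (hE q hq).1
    simp only [if_neg h1, h2, if_neg (hE q hq).2.2.1, (hE q hq).2.1, if_true]
    rw [if_neg (by decide)]
    exact hEz q hq) (by
    have h1 : ∀ v, (if a v = b v then (if v = u0 then τ else 0) else
        if om (z v) (a v) = 1 then om (z v) (b v) + 1 else om (z v) (b v)) * om (z v) (a v) =
        (if v = u0 then τ else 0) + (if a v = b v then 0 else (om (z v) (b v) + 1) * om (z v) (a v)) := by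
      intro v
      by_cases h : a v = b v
      · rw [if_pos h, if_pos h, hz.1.2 v h, mul_one, add_zero]
      · have hvu : v ≠ u0 := by rintro rfl; exact h hu0
        rw [if_neg h, if_neg h, if_neg hvu, zero_add]
        rcases f2_cases (om (z v) (a v)) with h0 | h0
        · rw [h0, mul_zero, mul_zero]
        · rw [h0, if_pos rfl]
    rw [Finset.sum_congr rfl fun v _ => h1 v, Finset.sum_add_distrib, Finset.sum_ite_eq',
      if_pos (Finset.mem_univ _), ← hτ, f2_self])
  refine ⟨c, hc, ?_, ?_⟩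
  · intro v hab hv
    rw [Pi.add_apply, om_add_left, hcv v (Or.inl hv), if_neg hab, if_pos hv, om_smul_left,
      om_ne _ _ (ha v) (hb v) hab, mul_one, ← add_assoc, f2_self, zero_add]
  · intro v hv
    have hab := (hE v hv).ab hz.1
    have h0 := (hE v hv).1
    apply om_both _ (a v) (b v) (om_ne _ _ (ha v) (hb v) hab)
    · rw [Pi.add_apply, om_add_left, h0, (mem_LT.1 hc).2 v, add_zero]
    · rw [Pi.add_apply, om_add_left, hcv v (Or.inr hv), if_neg hab, h0, if_neg (by decide),
        om_smul_left, om_ne _ _ (ha v) (hb v) hab, mul_one, f2_self]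

/-- good elements: sums of picks -/
def Good (L : Submodule F2 (V → K4)) (a b z : V → K4) (E : Finset V) (W : V → V)
    (x : V → K4) : Prop :=
  x ∈ MM L a b ∧ (∀ v, om (z v) (a v) = 0 → v ∉ E → om (x v) (a v) = 0) ∧
  (∀ q ∈ E, om (x q) (a q) = om (x (W q)) (a (W q))) ∧
  be a b z x = ∑ v, if a v = b v then 0 else om (z v) (a v) * om (x v) (a v)

theorem Good.add {L : Submodule F2 (V → K4)} {a b z : V → K4} {E : Finset V} {W : V → V}
    {x y : V → K4} (hx : Good L a b z E W x) (hy : Good L a b z E W y) :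
    Good L a b z E W (x + y) := by
  refine ⟨Submodule.add_mem _ hx.1 hy.1, ?_, ?_, ?_⟩
  · intro v h1 h2
    rw [Pi.add_apply, om_add_left, hx.2.1 v h1 h2, hy.2.1 v h1 h2, add_zero]
  · intro q hq
    rw [Pi.add_apply, Pi.add_apply, om_add_left, om_add_left, hx.2.2.1 q hq, hy.2.2.1 q hq]
  · rw [be_add_right, hx.2.2.2, hy.2.2.2, ← Finset.sum_add_distrib]
    refine Finset.sum_congr rfl fun v _ => ?_
    split_ifs
    · rw [add_zero]
    · rw [Pi.add_apply, om_add_left, mul_add]

theorem good_pick {L : Submodule F2 (V → K4)} {a b z : V → K4} (hz : Mn L a b z) (E : Finset V)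
    (Y : V → V → K4) (W : V → V)
    (hE : ∀ q ∈ E, Pr L a b z q (W q) (Y q)) (hE1 : ∀ q ∈ E, be a b z (Y q) = 1)
    (hinj : ∀ q ∈ E, ∀ q' ∈ E, W q = W q' → q = q') (q : V) (hq : q ∈ E) :
    Good L a b z E W (Y q) := by
  have hP := hE q hq
  have hEW : ∀ q ∈ E, ∀ q' ∈ E, q' ≠ W q := by
    rintro q hq q' hq' rfl
    have e1 := (hE q hq).2.1
    rw [(hE _ hq').1] at e1
    exact absurd e1 (by decide)
  refine ⟨hP.2.2.2.1, ?_, ?_, ?_⟩
  · intro v h1 h2
    rw [ind hP, if_neg, if_neg, add_zero]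
    · rintro rfl
      have e1 := hP.2.1
      rw [h1] at e1
      exact absurd e1 (by decide)
    · rintro rfl; exact h2 hq
  · intro q' hq'
    rw [ind hP, ind hP, if_neg (hEW q hq q' hq'), if_neg (Ne.symm (hEW q' hq' q hq)), add_zero,
      zero_add]
    by_cases h : q' = q
    · rw [if_pos h, if_pos (by rw [h])]
    · rw [if_neg h, if_neg fun h' => h (hinj _ hq' _ hq h')]
  · rw [hE1 q hq]
    have h1 : ∀ v, (if a v = b v then 0 else om (z v) (a v) * om (Y q v) (a v)) =
        (if v = W q then (1 : F2) else 0) := by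
      intro v
      by_cases h2 : v = W q
      · subst h2
        rw [if_neg hP.2.2.1, hP.2.1, (hP.2.2.2.2 _).2 (Or.inr rfl), if_pos rfl, mul_one]
      · rw [if_neg h2]
        by_cases h3 : v = q
        · subst h3
          rw [hP.1, zero_mul, ite_self]
        · rw [ind hP, if_neg h3, if_neg h2, add_zero, mul_zero, ite_self]
    rw [Finset.sum_congr rfl fun v _ => h1 v, Finset.sum_ite_eq', if_pos (Finset.mem_univ _)]

/-- words in the new transversal -/
theorem lemW {L : Submodule F2 (V → K4)} (hL : Lag L) {a b : V → K4}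
    (ha : ∀ v, a v ≠ 0) (hb : ∀ v, b v ≠ 0)
    (hi : ∀ x ∈ L, (∀ v, a v = b v → om (x v) (a v) = 0) ∨ (∀ v, a v = b v → om (x v) (a v) = 1))
    (c : (V → K4) →ₗ[F2] F2)
    (hc : ∀ y ∈ MM L a b, ∀ x ∈ MM L a b, be a b y x = c y * c x)
    {z : V → K4} (hz : Mn L a b z) (E : Finset V) (Y : V → V → K4) (W : V → V)
    (hE : ∀ q ∈ E, Pr L a b z q (W q) (Y q)) (x0 : V → K4) (hG : Good L a b z E W x0)
    (hx0 : c x0 = 0) (z1 : V → K4) :
    ∃ x ∈ LT L (TT a b z z1 E), x ∈ MM L a b ∧ (∀ v, om (x v) (a v) = om (x0 v) (a v)) ∧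
      ∀ v, a v ≠ b v → om (z v) (a v) = 1 → om (x v) (b v) = om (x0 v) (a v) := by
  have hother : ∀ v, ∃ s : K4, om s (a v) = 1 := fun v => exists_other _ (ha v)
  choose s hs using hother
  obtain ⟨hM, hA2, hA3, hA4⟩ := hG
  obtain ⟨d, hd, hdv⟩ := lemAdj hL ha hi hz E Y W hE
    (fun v => if a v = b v then om (x0 v) (s v) else om (x0 v) (b v) + om (x0 v) (a v)) (by
    intro q hq
    have h1 := (hE q hq).ab hz.1
    simp only [if_neg h1, if_neg (hE q hq).2.2.1]
    have h2 := hc x0 hM (Y q) (hE q hq).2.2.2.1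
    rw [hx0, zero_mul, (hE q hq).be_eq hz.1] at h2
    rw [f2_eq _ _ h2, hA3 q hq]) (by
    have h1 := hL.om (mem_MM.1 hM).1 hz.1.1
    have h2 : ∀ v, (if a v = b v then om (x0 v) (s v) else om (x0 v) (b v) + om (x0 v) (a v)) *
        om (z v) (a v) = om (x0 v) (z v) +
        (if a v = b v then 0 else om (z v) (b v) * om (x0 v) (a v)) +
        (if a v = b v then 0 else om (z v) (a v) * om (x0 v) (a v)) := by
      intro v
      by_cases h : a v = b v
      · rw [if_pos h, if_pos h, if_pos h, add_zero, add_zero,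
          om_basis (x0 v) (z v) (s v) (a v) (hs v), (mem_MM.1 hM).2 v h, zero_mul, zero_add]
      · rw [if_neg h, if_neg h, if_neg h,
          om_basis (x0 v) (z v) (a v) (b v) (om_ne _ _ (ha v) (hb v) h)]
        have : ∀ p q r t : F2, (p + q) * r = p * r + q * t + t * q + r * q := by decide
        exact this _ _ _ _
    rw [Finset.sum_congr rfl fun v _ => h2 v, Finset.sum_add_distrib, Finset.sum_add_distrib]
    have h3 : ∑ v, om (x0 v) (z v) = 0 := h1
    have h4 : (∑ v, if a v = b v then 0 else om (z v) (b v) * om (x0 v) (a v)) = be a b z x0 := rfl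
    rw [h3, h4, ← hA4, zero_add, f2_self])
  have hlam : ∀ v, om ((x0 + d) v) (a v) = om (x0 v) (a v) := by
    intro v
    rw [Pi.add_apply, om_add_left, (mem_LT.1 hd).2 v, add_zero]
  have hb1 : ∀ v, a v ≠ b v → (om (z v) (a v) = 1 ∨ v ∈ E) →
      om ((x0 + d) v) (b v) = om (x0 v) (a v) := by
    intro v hab hv
    rw [Pi.add_apply, om_add_left, hdv v hv, if_neg hab, om_smul_left,
      om_ne _ _ (ha v) (hb v) hab, mul_one, ← add_assoc, f2_self, zero_add]
  have hmm : x0 + d ∈ MM L a b := Submodule.add_mem _ hM (DD_le_MM L a b (Submodule.mem_sup_left hd))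
  refine ⟨x0 + d, mem_LT.2 ⟨(mem_MM.1 hmm).1, fun v => ?_⟩, hmm, hlam, fun v h1 h2 => hb1 v h1 (Or.inl h2)⟩
  unfold TT
  split_ifs with h1 h2
  · -- zero at the agreement set
    have h3 : (x0 + d) v = 0 := by
      apply om_both _ (s v) (a v) (hs v)
      · rw [Pi.add_apply, om_add_left, hdv v (Or.inl (hz.1.2 v h1)), if_pos h1, om_smul_left,
          om_comm (a v), hs v, mul_one, f2_self]
      · rw [hlam]; exact (mem_MM.1 hM).2 v h1
    rw [h3, om_zero_left]
  · rw [om_third, hlam, hb1 v h1 h2, f2_self]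
  · push Not at h2
    rw [hlam]
    exact hA2 v ((f2_ne_one _).1 h2.1) h2.2

/-- the construction -/
theorem build {L : Submodule F2 (V → K4)} (hL : Lag L) {a b : V → K4}
    (ha : ∀ v, a v ≠ 0) (hb : ∀ v, b v ≠ 0) (hfull : Full L a) (hU : ∃ v, a v = b v)
    (hi : ∀ x ∈ L, (∀ v, a v = b v → om (x v) (a v) = 0) ∨ (∀ v, a v = b v → om (x v) (a v) = 1))
    (c : (V → K4) →ₗ[F2] F2)
    (hc : ∀ y ∈ MM L a b, ∀ x ∈ MM L a b, be a b y x = c y * c x)
    (hc2 : ∀ x ∈ DD L a b, c x = 0)
    {z : V → K4} (hz : Mn L a b z) (E : Finset V) (Y : V → V → K4) (W : V → V)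
    (hE : ∀ q ∈ E, Pr L a b z q (W q) (Y q)) (hE1 : ∀ q ∈ E, be a b z (Y q) = 1)
    (hinj : ∀ q ∈ E, ∀ q' ∈ E, W q = W q' → q = q')
    (hcov : ∀ q w y, Pr L a b z q w y → be a b z y = 1 → ∃ e ∈ E, W e = w)
    (hpair : ∀ q ∈ E, c (Y q) = 1 → ∃ q' ∈ E, q' ≠ q ∧ c (Y q') = 1) :
    ∃ T : V → K4, (∀ v, T v ≠ 0) ∧ (∀ v, T v ≠ b v) ∧ Full L T := by
  obtain ⟨d, hd, hd1, hd2⟩ := lemZ hL ha hb hU hi hz E Y W hE hE1
  set z1 : V → K4 := z + d with hz1
  have hlam : ∀ v, om (z1 v) (a v) = om (z v) (a v) := by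
    intro v
    rw [hz1, Pi.add_apply, om_add_left, (mem_LT.1 hd).2 v, add_zero]
  have hz1L : z1 ∈ L := L.add_mem hz.1.1 (mem_LT.1 hd).1
  have hz1T : z1 ∈ LT L (TT a b z z1 E) := by
    refine mem_LT.2 ⟨hz1L, fun v => ?_⟩
    unfold TT
    split_ifs with h1 h2
    · exact om_self _
    · rcases f2_cases (om (z v) (a v)) with h0 | h0
      · rcases h2 with h2 | h2
        · rw [h0] at h2; exact absurd h2 (by decide)
        · rw [hd2 v h2, om_zero_left]
      · rw [om_third, hlam, h0, hd1 v h1 h0]; decide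
    · push Not at h2
      rw [hlam]
      exact (f2_ne_one _).1 h2.1
  -- words through the picks
  have hword : ∀ e ∈ E, ∃ x ∈ LT L (TT a b z z1 E), x ∈ MM L a b ∧ om (x e) (a e) = 1 ∧
      (∀ q w y, Pr L a b z q w y → w = W e → om (x q) (b q) = 1) := by
    intro e he
    obtain ⟨x0, hG, hx0, hxe⟩ : ∃ x0, Good L a b z E W x0 ∧ c x0 = 0 ∧ om (x0 e) (a e) = 1 := by
      rcases f2_cases (c (Y e)) with h0 | h0
      · exact ⟨Y e, good_pick hz E Y W hE hE1 hinj e he, h0, ((hE e he).2.2.2.2 e).2 (Or.inl rfl)⟩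
      · obtain ⟨e', he', hne, h1⟩ := hpair e he h0
        refine ⟨Y e + Y e', (good_pick hz E Y W hE hE1 hinj e he).add
          (good_pick hz E Y W hE hE1 hinj e' he'), ?_, ?_⟩
        · rw [map_add, h0, h1]; decide
        · rw [Pi.add_apply, om_add_left, ((hE e he).2.2.2.2 e).2 (Or.inl rfl), ind (hE e' he'),
            if_neg (Ne.symm hne), if_neg]
          · decide
          · intro h
            have e1 := (hE e' he').2.1
            rw [← h, (hE e he).1] at e1
            exact absurd e1 (by decide)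
    obtain ⟨x, hx, hxM, hx1, hx2⟩ := lemW hL ha hb hi c hc hz E Y W hE x0 hG hx0 z1
    refine ⟨x, hx, hxM, by rw [hx1, hxe], ?_⟩
    rintro q w y hP rfl
    have h1 : be a b x y = 0 := by
      rw [be_symm hL ha hb hP.2.2.2.1 hxM, be_congr a b y x x0 hx1, hc y hP.2.2.2.1 x0 hG.1, hx0,
        mul_zero]
    rw [hP.be_eq hz.1, hx2 _ hP.2.2.1 hP.2.1, ← hG.2.2.1 e he, hxe] at h1
    exact f2_eq _ _ h1
  refine ⟨TT a b z z1 E, ?_, ?_, ?_⟩
  · intro v
    unfold TT
    split_ifs with h1 h2
    · have := hlam v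
      rw [hz.1.2 v h1] at this
      exact (om_one_ne _ _ this).1
    · intro h3
      exact h1 (k4_eq _ _ h3)
    · exact ha v
  · intro v
    unfold TT
    split_ifs with h1 h2
    · have := hlam v
      rw [hz.1.2 v h1] at this
      rw [← h1]
      exact (om_one_ne _ _ this).2
    · intro h3
      apply ha v
      have : a v + b v + b v = b v + b v := by rw [h3]
      rwa [add_assoc, k4_self, add_zero] at this
    · exact h1
  · intro v
    rcases f2_cases (om (z v) (a v)) with h0 | h0
    · by_cases hvE : v ∈ E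
      · obtain ⟨x, hx, _, hx1, _⟩ := hword v hvE
        exact ⟨x, hx, (om_one_ne _ _ hx1).1⟩
      · rcases lemP hL ha hb hfull hi hz v h0 with ⟨x, hx, hx0, hxv⟩ | ⟨w, y, hP⟩
        · refine ⟨x, mem_LT.2 ⟨(mem_LT.1 hx).1, fun u => ?_⟩, hxv⟩
          unfold TT
          split_ifs with h1 h2
          · rw [hx0 u (hz.1.2 u h1), om_zero_left]
          · have hxu : x u = 0 := by
              rcases h2 with h2 | h2
              · exact hx0 u h2
              · have h3 : be a b x (Y u) = 0 := by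
                  rw [hc x (DD_le_MM L a b (Submodule.mem_sup_left hx)) (Y u) (hE u h2).2.2.2.1,
                    hc2 x (Submodule.mem_sup_left hx), zero_mul]
                rw [(hE u h2).be_eq hz.1, hx0 _ (hE u h2).2.1, om_zero_left, add_zero] at h3
                exact om_both _ _ _ (om_ne _ _ (ha u) (hb u) h1) ((mem_LT.1 hx).2 u) h3
            rw [hxu, om_zero_left]
          · exact (mem_LT.1 hx).2 u
        · rcases f2_cases (be a b z y) with h1 | h1
          · refine ⟨z1, hz1T, ?_⟩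
            have h2 : be a b z1 y = 0 := by
              rw [hz1, be_add_left, h1,
                hc d (DD_le_MM L a b (Submodule.mem_sup_left hd)) y hP.2.2.2.1,
                hc2 d (Submodule.mem_sup_left hd), zero_mul, add_zero]
            rw [hP.be_eq hz.1, hd1 _ hP.2.2.1 hP.2.1] at h2
            exact (om_one_ne _ _ (f2_eq _ _ h2)).1
          · obtain ⟨e, he, hew⟩ := hcov v w y hP h1
            obtain ⟨x, hx, _, _, hx2⟩ := hword e he
            exact ⟨x, hx, (om_one_ne _ _ (hx2 v w y hP hew.symm)).1⟩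
    · refine ⟨z1, hz1T, ?_⟩
      have := hlam v
      rw [h0] at this
      exact (om_one_ne _ _ this).1

end

end Pool.Agent.Helper45.SE
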