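import Mathlib

/-!
Lagrangian subspaces of `V → (ZMod 2)²` (isotropic systems), transversals, fullness.
-/

set_option autoImplicit false
set_option linter.all false

open Finset Module

namespace Pool.Agent.Helper45.SE

abbrev F2 := ZMod 2
abbrev K4 := ZMod 2 × ZMod 2

/-- symplectic form on the Klein group -/
def om (x y : K4) : F2 := x.1 * y.2 + x.2 * y.1

theorem om_self (x : K4) : om x x = 0 := by revert x; decide
theorem om_comm (x y : K4) : om x y = om y x := by revert x y; decide
theorem om_add_left (x y z : K4) : om (x + y) z = om x z + om y z := by revert x y z; decide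
theorem om_add_right (x y z : K4) : om x (y + z) = om x y + om x z := by revert x y z; decide
theorem om_zero_left (x : K4) : om 0 x = 0 := by revert x; decide
theorem om_zero_right (x : K4) : om x 0 = 0 := by revert x; decide
theorem om_smul_left (c : F2) (x y : K4) : om (c • x) y = c * om x y := by revert c x y; decide
theorem om_smul_right (c : F2) (x y : K4) : om x (c • y) = c * om x y := by revert c x y; decide
theorem om_eq_zero (x t : K4) : t ≠ 0 → om x t = 0 → x = 0 ∨ x = t := by revert x t; decide
theorem om_ne (a b : K4) : a ≠ 0 → b ≠ 0 → a ≠ b → om a b = 1 := by revert a b; decide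
theorem om_one_ne (x t : K4) : om x t = 1 → x ≠ 0 ∧ x ≠ t := by revert x t; decide
theorem f2_cases (x : F2) : x = 0 ∨ x = 1 := by revert x; decide
theorem f2_ne_zero (x : F2) : x ≠ 0 ↔ x = 1 := by revert x; decide
theorem f2_ne_one (x : F2) : x ≠ 1 ↔ x = 0 := by revert x; decide
theorem f2_self (x : F2) : x + x = 0 := by revert x; decide
theorem f2_eq (x y : F2) : x + y = 0 → x = y := by revert x y; decide
theorem f2_add (x y : F2) : x + y = 1 → x = y + 1 := by revert x y; decide
theorem k4_self (x : K4) : x + x = 0 := by revert x; decide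
theorem k4_eq (x y : K4) : x + y = 0 → x = y := by revert x y; decide
/-- the product formula in a symplectic basis -/
theorem om_basis (x y a b : K4) : om a b = 1 →
    om x y = om x b * om y a + om x a * om y b := by revert x y a b; decide
theorem om_both (x a b : K4) : om a b = 1 → om x a = 0 → om x b = 0 → x = 0 := by
  revert x a b; decide
theorem om_third (x a b : K4) : om x (a + b) = om x a + om x b := om_add_right _ _ _
theorem exists_other (t : K4) : t ≠ 0 → ∃ s : K4, om s t = 1 := by revert t; decide

section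
variable {V : Type*} [Fintype V] [DecidableEq V]

theorem vself (x : V → K4) : x + x = 0 := by funext v; exact k4_self _
theorem veq (x y : V → K4) (h : x + y = 0) : x = y := by
  funext v; exact k4_eq _ _ (congrFun h v)

/-- the symplectic form -/
def Om (x y : V → K4) : F2 := ∑ v, om (x v) (y v)

theorem Om_comm (x y : V → K4) : Om x y = Om y x :=
  Finset.sum_congr rfl fun v _ => om_comm _ _
theorem Om_add_left (x y z : V → K4) : Om (x + y) z = Om x z + Om y z := by
  unfold Om; rw [← Finset.sum_add_distrib]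
  exact Finset.sum_congr rfl fun v _ => om_add_left _ _ _
theorem Om_add_right (x y z : V → K4) : Om x (y + z) = Om x y + Om x z := by
  unfold Om; rw [← Finset.sum_add_distrib]
  exact Finset.sum_congr rfl fun v _ => om_add_right _ _ _
theorem Om_smul_left (c : F2) (x y : V → K4) : Om (c • x) y = c * Om x y := by
  unfold Om; rw [Finset.mul_sum]
  exact Finset.sum_congr rfl fun v _ => om_smul_left _ _ _

/-- pairing with `y` as a linear map -/
def OmL (y : V → K4) : (V → K4) →ₗ[F2] F2 where
  toFun x := Om x y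
  map_add' x x' := Om_add_left x x' y
  map_smul' c x := by rw [Om_smul_left]; rfl

theorem OmL_apply (x y : V → K4) : OmL y x = Om x y := rfl

theorem Om_single (v : V) (k : K4) (y : V → K4) : Om (Pi.single v k) y = om k (y v) := by
  unfold Om
  rw [Finset.sum_eq_single v]
  · rw [Pi.single_eq_same]
  · intro u _ hu
    rw [Pi.single_eq_of_ne hu, om_zero_left]
  · simp

theorem exists_rep (f : (V → K4) →ₗ[F2] F2) : ∃ y : V → K4, ∀ x, f x = Om x y := by
  refine ⟨fun v => (f (Pi.single v (0, 1)), f (Pi.single v (1, 0))), fun x => ?_⟩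
  have h1 : x = ∑ v, Pi.single v (x v) := by
    funext u
    rw [Finset.sum_apply, Finset.sum_eq_single u]
    · rw [Pi.single_eq_same]
    · intro w _ hw
      rw [Pi.single_eq_of_ne (Ne.symm hw)]
    · simp
  conv_lhs => rw [h1]
  rw [map_sum]
  refine Finset.sum_congr rfl fun v _ => ?_
  have h2 : (Pi.single v (x v) : V → K4) =
      (x v).1 • (Pi.single v ((1, 0) : K4) : V → K4) + (x v).2 • (Pi.single v ((0, 1) : K4) : V → K4) := by
    funext u
    by_cases hu : u = v
    · subst hu
      simp only [Pi.add_apply, Pi.smul_apply, Pi.single_eq_same]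
      ext <;> simp
    · simp only [Pi.add_apply, Pi.smul_apply, Pi.single_eq_of_ne hu]
      simp
  rw [h2, map_add, map_smul, map_smul]
  show (x v).1 * _ + (x v).2 * _ = (x v).1 * _ + (x v).2 * _
  rfl

theorem sep (W : Submodule F2 (V → K4)) (g : V → K4)
    (h : ∀ y, (∀ w ∈ W, Om w y = 0) → Om g y = 0) : g ∈ W := by
  by_contra hg
  obtain ⟨f, hfg, hWf⟩ := Submodule.exists_le_ker_of_notMem hg
  obtain ⟨y, hy⟩ := exists_rep f
  apply hfg
  rw [hy]
  apply h
  intro w hw
  rw [← hy]
  exact hWf hw

/-- `L` is Lagrangian -/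
def Lag (L : Submodule F2 (V → K4)) : Prop := ∀ x, x ∈ L ↔ ∀ y ∈ L, Om x y = 0

theorem Lag.om {L : Submodule F2 (V → K4)} (hL : Lag L) {x y : V → K4} (hx : x ∈ L) (hy : y ∈ L) :
    Om x y = 0 := (hL x).1 hx y hy

theorem Lag.split {L : Submodule F2 (V → K4)} (hL : Lag L) (A : Submodule F2 (V → K4))
    (g : V → K4) (h : ∀ y ∈ L, (∀ w ∈ A, Om w y = 0) → Om g y = 0) :
    ∃ x ∈ L, ∃ w ∈ A, x + w = g := by
  have h1 : g ∈ L ⊔ A := by
    apply sep
    intro y hy
    apply h y
    · rw [hL]
      intro z hz
      rw [Om_comm]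
      exact hy z (Submodule.mem_sup_left hz)
    · intro w hw
      exact hy w (Submodule.mem_sup_right hw)
  obtain ⟨x, hx, w, hw, e⟩ := Submodule.mem_sup.1 h1
  exact ⟨x, hx, w, hw, e⟩

/-- vectors parallel to `T` -/
def Par (T : V → K4) : Submodule F2 (V → K4) where
  carrier := {x | ∀ v, om (x v) (T v) = 0}
  add_mem' := by
    intro x y hx hy v
    show om (x v + y v) (T v) = 0
    rw [om_add_left, hx v, hy v, add_zero]
  zero_mem' := fun v => om_zero_left _
  smul_mem' := by
    intro c x hx v
    show om (c • x v) (T v) = 0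
    rw [om_smul_left, hx v, mul_zero]

theorem mem_Par {T x : V → K4} : x ∈ Par T ↔ ∀ v, om (x v) (T v) = 0 := Iff.rfl

/-- `L_T` -/
def LT (L : Submodule F2 (V → K4)) (T : V → K4) : Submodule F2 (V → K4) := L ⊓ Par T

theorem mem_LT {L : Submodule F2 (V → K4)} {T x : V → K4} :
    x ∈ LT L T ↔ x ∈ L ∧ ∀ v, om (x v) (T v) = 0 := Iff.rfl

/-- `T` is full -/
def Full (L : Submodule F2 (V → K4)) (T : V → K4) : Prop := ∀ v, ∃ x ∈ LT L T, x v ≠ 0

theorem raise {L : Submodule F2 (V → K4)} (hL : Lag L) (T : V → K4) (hT : ∀ v, T v ≠ 0) (v : V)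
    (hv : ∀ x ∈ LT L T, x v = 0) :
    ∃ t : K4, t ≠ 0 ∧ t ≠ T v ∧
      finrank F2 (LT L T) + 1 ≤ finrank F2 (LT L (Function.update T v t)) := by
  obtain ⟨s, hs⟩ := exists_other (T v) (hT v)
  obtain ⟨x, hx, w, hw, e⟩ := hL.split (Par T) (Pi.single v s) (by
    intro y hy h
    rw [Om_single, hv y (mem_LT.2 ⟨hy, fun u => ?_⟩), om_zero_right]
    have h1 : Om (Pi.single u (T u)) y = 0 := h _ (by
      intro u'
      by_cases hu : u' = u
      · subst hu; rw [Pi.single_eq_same, om_self]
      · rw [Pi.single_eq_of_ne hu, om_zero_left])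
    rw [Om_single] at h1
    rw [om_comm]; exact h1)
  have hxu : ∀ u, u ≠ v → om (x u) (T u) = 0 := by
    intro u hu
    have h1 := congrFun e u
    rw [Pi.single_eq_of_ne hu] at h1
    rw [k4_eq _ _ h1]
    exact hw u
  have hxv : om (x v) (T v) = 1 := by
    have h1 := congrFun e v
    rw [Pi.single_eq_same] at h1
    rw [← hs, ← h1]
    show _ = om (x v + w v) (T v)
    rw [om_add_left, hw v, add_zero]
  obtain ⟨h0, h1⟩ := om_one_ne _ _ hxv
  refine ⟨x v, h0, h1, ?_⟩
  have hle : LT L T ≤ LT L (Function.update T v (x v)) := by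
    intro y hy
    refine mem_LT.2 ⟨(mem_LT.1 hy).1, fun u => ?_⟩
    by_cases hu : u = v
    · subst hu; rw [hv y hy, om_zero_left]
    · rw [Function.update_of_ne hu]; exact (mem_LT.1 hy).2 u
  have hlt : LT L T < LT L (Function.update T v (x v)) := by
    refine lt_of_le_of_ne hle fun heq => ?_
    have h2 : x ∈ LT L (Function.update T v (x v)) := by
      refine mem_LT.2 ⟨hx, fun u => ?_⟩
      by_cases hu : u = v
      · subst hu; rw [Function.update_self, om_self]
      · rw [Function.update_of_ne hu]; exact hxu u hu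
    rw [← heq] at h2
    exact h0 (hv x h2)
  exact Submodule.finrank_lt_finrank_of_lt hlt

end

end Pool.Agent.Helper45.SE
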