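import Pool.Agent.Helper45.SE.Two
import Pool.Agent.Helper45.CCD.Circ

/-!
From 4-regular graphs to Lagrangian subspaces.
-/

set_option autoImplicit false
set_option linter.all false

open Finset Module

namespace Pool.Agent.Helper45.SE

theorem k4_sum (x y : K4) (f g : F2) :
    ∑ k : K4, (om x k + f) * (om y k + g) = om x y := by revert x y f g; decide
theorem k4_sum1 (x y : K4) (g : F2) :
    ∑ k : K4, om x k * (om y k + g) = om x y := by revert x y g; decide
theorem k4_sum0 (f : K4 → F2) (h : ∑ k : K4, f k = 0) (k : K4) :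
    f k = om (f (0, 1) + f 0, f (1, 0) + f 0) k + f 0 := by
  have h1 : f 0 + f (0, 1) + f (1, 0) + f (1, 1) = 0 := by
    have h2 : (univ : Finset K4) = {0, (0, 1), (1, 0), (1, 1)} := by decide
    rw [h2, Finset.sum_insert (by decide), Finset.sum_insert (by decide),
      Finset.sum_insert (by decide), Finset.sum_singleton] at h
    rw [add_assoc, add_assoc]
    exact h
  have h3 : ∀ p q r s : F2, p + q + r + s = 0 → s = q + r + p := by decide
  have h4 := h3 _ _ _ _ h1
  have h5 : ∀ p q : F2, p = p + q + q := by decide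
  have hk : k = 0 ∨ k = (0, 1) ∨ k = (1, 0) ∨ k = (1, 1) := by revert k; decide
  unfold om
  rcases hk with rfl | rfl | rfl | rfl
  · simp
  · simpa using h5 _ _
  · simpa using h5 _ _
  · simp only [mul_one]
    rw [h4]
    generalize f (0, 1) = p
    generalize f (1, 0) = q
    generalize f 0 = r
    revert p q r
    decide

section
variable {V E : Type} [Fintype V] [DecidableEq V] [Fintype E] [DecidableEq E]

/-- enumeration of the edges at every vertex by the Klein group -/
structure Enum (ends : E → Sym2 V) (ed : V → K4 → E) : Prop where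
  mem : ∀ v k, v ∈ ends (ed v k)
  inj : ∀ v k l, ed v k = ed v l → k = l
  surj : ∀ v e, v ∈ ends e → ∃ k, ed v k = e
  loop : ∀ e, ¬ (ends e).IsDiag

theorem exists_Enum (ends : E → Sym2 V) (hloop : ∀ e, ¬ (ends e).IsDiag)
    (hdeg : ∀ v : V, (Finset.univ.filter (fun e : E => v ∈ ends e)).card = 4) :
    ∃ ed, Enum ends ed := by
  have h : ∀ v, Nonempty (K4 ≃ {e : E // v ∈ ends e}) := by
    intro v
    refine ⟨Fintype.equivOfCardEq ?_⟩
    rw [Fintype.card_subtype, hdeg v]
    decide
  have φ : ∀ v, K4 ≃ {e : E // v ∈ ends e} := fun v => (h v).some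
  refine ⟨fun v k => (φ v k).1, fun v k => (φ v k).2, ?_, ?_, hloop⟩
  · intro v k l h
    exact (φ v).injective (Subtype.ext h)
  · intro v e he
    exact ⟨(φ v).symm ⟨e, he⟩, by rw [Equiv.apply_symm_apply]⟩

variable {ends : E → Sym2 V} {ed : V → K4 → E}

/-- the two positions of an edge -/
theorem Enum.pos (h : Enum ends ed) (e : E) : ∃ u w k l, u ≠ w ∧ ed u k = e ∧ ed w l = e ∧
    ∀ v j, ed v j = e → (v = u ∧ j = k) ∨ (v = w ∧ j = l) := by
  obtain ⟨u, w, huw⟩ : ∃ u w, ends e = s(u, w) := by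
    induction h' : ends e using Sym2.ind with
    | _ u v => exact ⟨u, v, rfl⟩
  have hne : u ≠ w := by
    rintro rfl
    apply h.loop e
    rw [huw]
    exact Sym2.mk_isDiag_iff.2 rfl
  obtain ⟨k, hk⟩ := h.surj u e (by rw [huw]; exact Sym2.mem_mk_left _ _)
  obtain ⟨l, hl⟩ := h.surj w e (by rw [huw]; exact Sym2.mem_mk_right _ _)
  refine ⟨u, w, k, l, hne, hk, hl, ?_⟩
  intro v j hj
  have h1 := h.mem v j
  rw [hj, huw, Sym2.mem_iff] at h1
  rcases h1 with rfl | rfl
  · exact Or.inl ⟨rfl, h.inj _ _ _ (hj.trans hk.symm)⟩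
  · exact Or.inr ⟨rfl, h.inj _ _ _ (hj.trans hl.symm)⟩

/-- incidence sum -/
def II (ed : V → K4 → E) (h : V → K4 → F2) (e : E) : F2 :=
  ∑ v, ∑ k, if ed v k = e then h v k else 0

theorem II_eval (hE : Enum ends ed) (h : V → K4 → F2) {e : E} {u w : V} {k l : K4} (huw : u ≠ w)
    (hk : ed u k = e) (hl : ed w l = e)
    (hall : ∀ v j, ed v j = e → (v = u ∧ j = k) ∨ (v = w ∧ j = l)) :
    II ed h e = h u k + h w l := by
  unfold II
  have h1 : ∀ v, (∑ j, if ed v j = e then h v j else 0) =
      (if v = u then h u k else 0) + (if v = w then h w l else 0) := by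
    intro v
    by_cases e1 : v = u
    · subst e1
      rw [if_pos rfl, if_neg huw, add_zero, Finset.sum_eq_single k]
      · rw [if_pos hk]
      · intro j _ hj
        rw [if_neg]
        intro h2
        rcases hall v j h2 with h3 | h3
        · exact hj h3.2
        · exact huw h3.1
      · intro h2; exact absurd (Finset.mem_univ _) h2
    · by_cases e2 : v = w
      · subst e2
        rw [if_neg e1, if_pos rfl, zero_add, Finset.sum_eq_single l]
        · rw [if_pos hl]
        · intro j _ hj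
          rw [if_neg]
          intro h2
          rcases hall v j h2 with h3 | h3
          · exact e1 h3.1
          · exact hj h3.2
        · intro h2; exact absurd (Finset.mem_univ _) h2
      · rw [if_neg e1, if_neg e2, add_zero]
        refine Finset.sum_eq_zero fun j _ => ?_
        rw [if_neg]
        intro h2
        rcases hall v j h2 with h3 | h3
        · exact e1 h3.1
        · exact e2 h3.1
  rw [Finset.sum_congr rfl fun v _ => h1 v, Finset.sum_add_distrib, Finset.sum_ite_eq',
    Finset.sum_ite_eq', if_pos (Finset.mem_univ _), if_pos (Finset.mem_univ _)]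

theorem II_dual (h : V → K4 → F2) (G : E → F2) :
    ∑ e, G e * II ed h e = ∑ v, ∑ k, G (ed v k) * h v k := by
  unfold II
  have h1 : ∀ e, G e * ∑ v, ∑ k, (if ed v k = e then h v k else 0) =
      ∑ v, ∑ k, if ed v k = e then G e * h v k else 0 := by
    intro e
    rw [Finset.mul_sum]
    refine Finset.sum_congr rfl fun v _ => ?_
    rw [Finset.mul_sum]
    refine Finset.sum_congr rfl fun k _ => ?_
    rw [mul_ite, mul_zero]
  rw [Finset.sum_congr rfl fun e _ => h1 e, Finset.sum_comm]
  refine Finset.sum_congr rfl fun v _ => ?_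
  rw [Finset.sum_comm]
  refine Finset.sum_congr rfl fun k _ => ?_
  rw [Finset.sum_ite_eq, if_pos (Finset.mem_univ _)]

/-- double counting -/
theorem sum_pos (hE : Enum ends ed) (h : E → F2) : ∑ v, ∑ k, h (ed v k) = 0 := by
  have h1 := II_dual (ed := ed) (fun _ _ => 1) h
  simp only [mul_one] at h1
  rw [← h1]
  refine Finset.sum_eq_zero fun e _ => ?_
  obtain ⟨u, w, k, l, huw, hk, hl, hall⟩ := hE.pos e
  rw [II_eval hE _ huw hk hl hall]
  have : (1 : F2) + 1 = 0 := by decide
  rw [this, mul_zero]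

/-- the Lagrangian of the graph -/
def GA (ed : V → K4 → E) : Submodule F2 (V → K4) where
  carrier := {x | ∃ F : E → F2, ∀ v k, F (ed v k) = om (x v) k + F (ed v 0)}
  add_mem' := by
    rintro x y ⟨F, hF⟩ ⟨G, hG⟩
    refine ⟨F + G, fun v k => ?_⟩
    show F (ed v k) + G (ed v k) = om (x v + y v) k + (F (ed v 0) + G (ed v 0))
    rw [hF v k, hG v k, om_add_left]; ring
  zero_mem' := ⟨0, fun v k => by
    show (0 : F2) = om 0 k + 0
    rw [om_zero_left, add_zero]⟩
  smul_mem' := by
    rintro c x ⟨F, hF⟩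
    refine ⟨c • F, fun v k => ?_⟩
    show c * F (ed v k) = om (c • x v) k + c * F (ed v 0)
    rw [hF v k, om_smul_left]; ring

/-- the vector of an edge function -/
def XX (ed : V → K4 → E) (F : E → F2) (v : V) : K4 :=
  (F (ed v (0, 1)) + F (ed v 0), F (ed v (1, 0)) + F (ed v 0))

theorem XX_spec (F : E → F2) (hF : ∀ v, ∑ k, F (ed v k) = 0) (v : V) (k : K4) :
    F (ed v k) = om (XX ed F v) k + F (ed v 0) := k4_sum0 (fun k => F (ed v k)) (hF v) k

theorem sepE (W : Submodule F2 (E → F2)) (g : E → F2)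
    (h : ∀ G : E → F2, (∀ w ∈ W, ∑ e, G e * w e = 0) → ∑ e, G e * g e = 0) : g ∈ W := by
  by_contra hg
  obtain ⟨f, hfg, hWf⟩ := Submodule.exists_le_ker_of_notMem hg
  have hy : ∀ x, f x = ∑ e, f (Pi.single e 1) * x e := by
    intro x
    have h1 : x = ∑ e, x e • (Pi.single e (1 : F2) : E → F2) := by
      funext u
      rw [Finset.sum_apply, Finset.sum_eq_single u]
      · rw [Pi.smul_apply, Pi.single_eq_same, smul_eq_mul, mul_one]
      · intro w _ hw
        rw [Pi.smul_apply, Pi.single_eq_of_ne (Ne.symm hw), smul_zero]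
      · simp
    conv_lhs => rw [h1]
    rw [map_sum]
    refine Finset.sum_congr rfl fun e _ => ?_
    rw [map_smul, smul_eq_mul, mul_comm]
  apply hfg
  rw [hy]
  apply h
  intro w hw
  rw [← hy]
  exact hWf hw

theorem GA_lag (hE : Enum ends ed) : Lag (GA ed) := by
  intro x
  constructor
  · rintro ⟨F, hF⟩ y ⟨G, hG⟩
    have h1 := sum_pos hE (fun e => F e * G e)
    rw [← h1]
    refine Finset.sum_congr rfl fun v _ => ?_
    rw [← k4_sum (x v) (y v) (F (ed v 0)) (G (ed v 0))]
    refine Finset.sum_congr rfl fun k _ => ?_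
    rw [hF v k, hG v k]
  · intro hx
    let δ : (V → F2) →ₗ[F2] (E → F2) :=
      { toFun := fun f => II ed (fun v _ => f v)
        map_add' := by
          intro f g
          funext e
          show II ed (fun v _ => f v + g v) e = II ed (fun v _ => f v) e + II ed (fun v _ => g v) e
          unfold II
          rw [← Finset.sum_add_distrib]
          refine Finset.sum_congr rfl fun v _ => ?_
          rw [← Finset.sum_add_distrib]
          refine Finset.sum_congr rfl fun k _ => ?_
          split_ifs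
          · rfl
          · rw [add_zero]
        map_smul' := by
          intro c f
          funext e
          show II ed (fun v _ => c * f v) e = c * II ed (fun v _ => f v) e
          unfold II
          rw [Finset.mul_sum]
          refine Finset.sum_congr rfl fun v _ => ?_
          rw [Finset.mul_sum]
          refine Finset.sum_congr rfl fun k _ => ?_
          rw [mul_ite, mul_zero] }
    have h1 : II ed (fun v k => om (x v) k) ∈ LinearMap.range δ := by
      apply sepE
      intro G hG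
      have hev : ∀ v, ∑ k, G (ed v k) = 0 := by
        intro v
        have h2 := hG (δ (Pi.single v 1)) ⟨_, rfl⟩
        have h3 : ∑ e, G e * II ed (fun u _ => (Pi.single v (1 : F2) : V → F2) u) e = 0 := h2
        rw [II_dual, Finset.sum_eq_single v] at h3
        · rw [Pi.single_eq_same] at h3
          simpa using h3
        · intro u _ hu
          refine Finset.sum_eq_zero fun k _ => ?_
          rw [Pi.single_eq_of_ne hu, mul_zero]
        · intro h; exact absurd (Finset.mem_univ _) h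
      rw [II_dual]
      have h2 : XX ed G ∈ GA ed := ⟨G, XX_spec G hev⟩
      have h3 := hx _ h2
      rw [← h3]
      refine Finset.sum_congr rfl fun v _ => ?_
      rw [← k4_sum1 (x v) (XX ed G v) (G (ed v 0))]
      refine Finset.sum_congr rfl fun k _ => ?_
      rw [← XX_spec G hev v k, mul_comm]
    obtain ⟨f, hf⟩ := h1
    have hf' : ∀ e, II ed (fun v _ => f v) e = II ed (fun v k => om (x v) k) e :=
      fun e => congrFun hf e
    choose U W K Lx hUW hK hLx hall using hE.pos
    refine ⟨fun e => om (x (U e)) (K e) + f (U e), ?_⟩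
    have hval : ∀ v k, om (x (U (ed v k))) (K (ed v k)) + f (U (ed v k)) = om (x v) k + f v := by
      intro v k
      set e := ed v k with he
      rcases hall e v k he.symm with ⟨h2, h3⟩ | ⟨h2, h3⟩
      · rw [← h2, ← h3]
      · have h4 := hf' e
        rw [II_eval hE _ (hUW e) (hK e) (hLx e) (hall e), II_eval hE _ (hUW e) (hK e) (hLx e) (hall e)]
          at h4
        rw [h2, h3]
        have : ∀ p q r s : F2, p + q = r + s → r + p = s + q := by decide
        exact this _ _ _ _ h4
    intro v k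
    show om (x (U (ed v k))) (K (ed v k)) + f (U (ed v k)) =
      om (x v) k + (om (x (U (ed v 0))) (K (ed v 0)) + f (U (ed v 0)))
    rw [hval v k, hval v 0, om_zero_right, zero_add]

theorem reach_const {X : Type} {G : SimpleGraph X} (hG : G.Connected) {A : Type} (φ : X → A)
    (h : ∀ u v, G.Adj u v → φ u = φ v) (u v : X) : φ u = φ v := by
  obtain ⟨w⟩ := hG.preconnected u v
  induction w with
  | nil => rfl
  | cons hadj _ ih => exact (h _ _ hadj).trans ih

theorem edge_of_adj {u v : V}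
    (h : (SimpleGraph.fromRel (fun u w : V => ∃ e, ends e = s(u, w))).Adj u v) :
    ∃ e, ends e = s(u, v) := by
  rw [SimpleGraph.fromRel_adj] at h
  rcases h.2 with h' | ⟨x, h'⟩
  · exact h'
  · exact ⟨x, by rw [h', Sym2.eq_swap]⟩

theorem GA_clean (hE : Enum ends ed)
    (hconn' : ∀ v : V, ((SimpleGraph.fromRel (fun u w : V => ∃ e, ends e = s(u, w))).induce
          {w : V | w ≠ v}).Connected) : Clean (GA ed) := by
  rintro v0 k0 hk0 ⟨F, hF⟩
  have h1 : ∀ v, v ≠ v0 → ∀ k, F (ed v k) = F (ed v 0) := by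
    intro v hv k
    rw [hF v k, Pi.single_eq_of_ne hv, om_zero_left, zero_add]
  have h2 : ∀ v, v ≠ v0 → ∀ e, v ∈ ends e → F e = F (ed v 0) := by
    intro v hv e he
    obtain ⟨k, rfl⟩ := hE.surj v e he
    exact h1 v hv k
  have h3 := reach_const (hconn' v0) (fun v => F (ed v.1 0)) (by
    rintro ⟨u, hu⟩ ⟨v, hv⟩ hadj
    obtain ⟨e, he⟩ := edge_of_adj (ends := ends) (u := u) (v := v) hadj
    show F (ed u 0) = F (ed v 0)
    rw [← h2 u hu e (by rw [he]; exact Sym2.mem_mk_left _ _),
      ← h2 v hv e (by rw [he]; exact Sym2.mem_mk_right _ _)])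
  have h4 : ∀ e, ∃ v, v ≠ v0 ∧ v ∈ ends e := by
    intro e
    obtain ⟨u, w, k, l, huw, hk, hl, _⟩ := hE.pos e
    by_cases hu : u = v0
    · refine ⟨w, ?_, ?_⟩
      · rintro rfl; exact huw hu
      · rw [← hl]; exact hE.mem _ _
    · exact ⟨u, hu, by rw [← hk]; exact hE.mem _ _⟩
  apply hk0
  have h5 : ∀ k, om k0 k = 0 := by
    intro k
    have h6 := hF v0 k
    rw [Pi.single_eq_same] at h6
    obtain ⟨v, hv, hve⟩ := h4 (ed v0 k)
    obtain ⟨w, hw, hwe⟩ := h4 (ed v0 0)
    have h7 : F (ed v 0) = F (ed w 0) := h3 ⟨v, hv⟩ ⟨w, hw⟩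
    rw [h2 v hv _ hve, h2 w hw _ hwe, h7] at h6
    have : ∀ p q : F2, q = p + q → p = 0 := by decide
    exact this _ _ h6
  exact om_both k0 (1, 0) (0, 1) (by decide) (h5 _) (h5 _)

/-- `T v` pairs the edges at `v` -/
def IsTransition (ends : E → Sym2 V) (T : V → E → E) : Prop :=
  ∀ v e, v ∈ ends e → v ∈ ends (T v e) ∧ T v e ≠ e ∧ T v (T v e) = e

/-- number of closed trails -/
noncomputable def numTrails (ends : E → Sym2 V) (T : V → E → E) : ℕ :=
  Nat.card (Quot (fun e f : E => ∃ v, v ∈ ends e ∧ T v e = f))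

theorem k4_pair (σ : K4 → K4) (h1 : ∀ k, σ k ≠ k) (h2 : ∀ k, σ (σ k) = k) (k : K4) :
    σ k = k + σ 0 := by
  have h0 := h2 0
  have key : ∀ t k s : K4, t ≠ 0 → k ≠ 0 → k ≠ t → s ≠ k → s ≠ 0 → s ≠ t → s = k + t := by decide
  by_cases e1 : k = 0
  · rw [e1, zero_add]
  · by_cases e2 : k = σ 0
    · rw [e2, h0, k4_self]
    · apply key (σ 0) k (σ k) (h1 0) e1 e2 (h1 k)
      · intro h
        apply e2
        rw [← h2 k, h]
      · intro h
        apply e1
        have := congrArg σ h
        rw [h2, h0] at this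
        exact this

/-- labels of a transition system -/
theorem exists_label (hE : Enum ends ed) (T : V → E → E) (hT : IsTransition ends T) :
    ∃ a : V → K4, (∀ v, a v ≠ 0) ∧ ∀ v k, T v (ed v k) = ed v (k + a v) := by
  have h : ∀ v k, ∃ l, ed v l = T v (ed v k) := fun v k =>
    hE.surj v _ (hT v _ (hE.mem v k)).1
  choose σ hσ using h
  have h1 : ∀ v k, σ v k ≠ k := by
    intro v k h
    have := hσ v k
    rw [h] at this
    exact (hT v _ (hE.mem v k)).2.1 this.symm
  have h2 : ∀ v k, σ v (σ v k) = k := by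
    intro v k
    apply hE.inj v
    rw [hσ, hσ]
    exact (hT v _ (hE.mem v k)).2.2
  refine ⟨fun v => σ v 0, fun v => h1 v 0, fun v k => ?_⟩
  rw [← hσ v k, k4_pair (σ v) (h1 v) (h2 v) k]

theorem k4_inv : ∀ (t : K4) (g : K4 → F2), t ≠ 0 → (∀ k, g (k + t) = g k) → ∑ k, g k = 0 := by
  decide

theorem trails_le (hE : Enum ends ed)
    (hconn : (SimpleGraph.fromRel (fun u v : V => ∃ e, ends e = s(u, v))).Connected)
    (T : V → E → E) (a : V → K4) (ha0 : ∀ v, a v ≠ 0) (ha : ∀ v k, T v (ed v k) = ed v (k + a v)) :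
    numTrails ends T ≤ finrank F2 (LT (GA ed) a) + 1 := by
  classical
  set r : E → E → Prop := fun e f => ∃ v, v ∈ ends e ∧ T v e = f with hr
  haveI : Fintype (Quot r) := Fintype.ofFinite _
  let Ψ : (Quot r → F2) →ₗ[F2] (V → K4) :=
    { toFun := fun φ => XX ed (fun e => φ (Quot.mk r e))
      map_add' := by
        intro φ ψ
        funext v
        exact Prod.ext (add_add_add_comm _ _ _ _) (add_add_add_comm _ _ _ _)
      map_smul' := by
        intro c φ
        funext v
        exact Prod.ext (mul_add _ _ _).symm (mul_add _ _ _).symm }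
  have hinv : ∀ (φ : Quot r → F2) v k, φ (Quot.mk r (ed v (k + a v))) = φ (Quot.mk r (ed v k)) := by
    intro φ v k
    congr 1
    exact (Quot.sound ⟨v, hE.mem v k, ha v k⟩).symm
  have hev : ∀ (φ : Quot r → F2) v, ∑ k, φ (Quot.mk r (ed v k)) = 0 := by
    intro φ v
    exact k4_inv (a v) (fun k => φ (Quot.mk r (ed v k))) (ha0 v) (hinv φ v)
  have hspec : ∀ (φ : Quot r → F2) v k, φ (Quot.mk r (ed v k)) =
      om (Ψ φ v) k + φ (Quot.mk r (ed v 0)) := fun φ v k =>
    XX_spec (fun e => φ (Quot.mk r e)) (hev φ) v k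
  have hrange : LinearMap.range Ψ ≤ LT (GA ed) a := by
    rintro _ ⟨φ, rfl⟩
    refine mem_LT.2 ⟨⟨fun e => φ (Quot.mk r e), hspec φ⟩, fun v => ?_⟩
    have h1 := hspec φ v (a v)
    have h2 := hinv φ v 0
    rw [zero_add] at h2
    rw [h2] at h1
    have : ∀ p q : F2, q = p + q → p = 0 := by decide
    exact this _ _ h1
  have hker : LinearMap.ker Ψ ≤ Submodule.span F2 {(fun _ => 1 : Quot r → F2)} := by
    intro φ hφ
    have h0 : Ψ φ = 0 := LinearMap.mem_ker.1 hφ
    have h1 : ∀ v k, φ (Quot.mk r (ed v k)) = φ (Quot.mk r (ed v 0)) := by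
      intro v k
      rw [hspec φ v k, h0, Pi.zero_apply, om_zero_left, zero_add]
    have h2 : ∀ v e, v ∈ ends e → φ (Quot.mk r e) = φ (Quot.mk r (ed v 0)) := by
      intro v e he
      obtain ⟨k, rfl⟩ := hE.surj v e he
      exact h1 v k
    have h3 := reach_const hconn (fun v => φ (Quot.mk r (ed v 0))) (by
      intro u v hadj
      obtain ⟨e, he⟩ := edge_of_adj hadj
      show φ (Quot.mk r (ed u 0)) = φ (Quot.mk r (ed v 0))
      rw [← h2 u e (by rw [he]; exact Sym2.mem_mk_left _ _),
        ← h2 v e (by rw [he]; exact Sym2.mem_mk_right _ _)])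
    rw [Submodule.mem_span_singleton]
    obtain ⟨v0⟩ := hconn.nonempty
    refine ⟨φ (Quot.mk r (ed v0 0)), ?_⟩
    funext q
    obtain ⟨e, rfl⟩ := Quot.exists_rep q
    obtain ⟨u, w, k, l, huw, hk, hl, _⟩ := hE.pos e
    show φ (Quot.mk r (ed v0 0)) * 1 = φ (Quot.mk r e)
    rw [mul_one, h2 u e (by rw [← hk]; exact hE.mem _ _)]
    exact h3 v0 u
  have h1 := LinearMap.finrank_range_add_finrank_ker Ψ
  have h2 := Submodule.finrank_mono hrange
  have h3 := Submodule.finrank_mono hker
  have h4 : finrank F2 (Submodule.span F2 {(fun _ => 1 : Quot r → F2)}) ≤ 1 :=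
    (finrank_span_le_card _).trans (by simp)
  have h5 : finrank F2 (Quot r → F2) = numTrails ends T := by
    rw [Module.finrank_pi]
    exact (Nat.card_eq_fintype_card).symm
  omega

/-- the transition relation of a label -/
theorem full_trans (hE : Enum ends ed) (a : V → K4) (ha : ∀ v, a v ≠ 0) (hf : Full (GA ed) a) :
    ∃ c : E → (V → F2), CCD.Trans ends (fun v e f => ∃ k, ed v k = e ∧ ed v (k + a v) = f) c := by
  choose x hx hxv using hf
  have hF : ∀ v, ∃ F : E → F2, ∀ u k, F (ed u k) = om (x v u) k + F (ed u 0) := fun v =>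
    (mem_LT.1 (hx v)).1
  choose F hF using hF
  refine ⟨fun e v => F v e, ?_, ?_, ?_, ?_, ?_, ?_⟩
  · rintro v e f ⟨k, rfl, rfl⟩
    exact ⟨k + a v, rfl, by rw [add_assoc, k4_self, add_zero]⟩
  · rintro v e f ⟨k, rfl, rfl⟩
    refine ⟨hE.mem _ _, fun h => ha v ?_⟩
    have h1 := hE.inj _ _ _ h
    have : k + 0 = k + a v := by rw [add_zero]; exact h1
    exact (add_left_cancel this).symm
  · intro v e he
    obtain ⟨k, hk⟩ := hE.surj v e he
    exact ⟨_, k, hk, rfl⟩
  · rintro v e f f' ⟨k, rfl, rfl⟩ ⟨l, h1, rfl⟩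
    rw [hE.inj _ _ _ h1]
  · rintro v e f ⟨k, rfl, rfl⟩
    funext w
    show F w (ed v k) = F w (ed v (k + a v))
    rw [hF w v k, hF w v (k + a v), om_add_right, (mem_LT.1 (hx w)).2 v, add_zero]
  · intro v e f he hf' hc
    obtain ⟨k, rfl⟩ := hE.surj v e he
    obtain ⟨l, rfl⟩ := hE.surj v f hf'
    have h1 : F v (ed v k) = F v (ed v l) := congrFun hc v
    rw [hF v v k, hF v v l] at h1
    have h2 : om (x v v) (k + l) = 0 := by
      rw [om_add_right]
      have : ∀ p q r : F2, p + r = q + r → p + q = 0 := by decide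
      exact this _ _ _ h1
    have h3 : x v v = a v := by
      rcases om_eq_zero _ _ (ha v) ((mem_LT.1 (hx v)).2 v) with h | h
      · exact absurd h (hxv v)
      · exact h
    rw [h3, om_comm] at h2
    rcases om_eq_zero _ _ (ha v) h2 with h4 | h4
    · left
      rw [k4_eq _ _ h4]
    · right
      refine ⟨k, rfl, ?_⟩
      rw [← h4, ← add_assoc, k4_self, zero_add]

/-- the theorem for graphs -/
theorem low_genus (ends : E → Sym2 V) (hloop : ∀ e, ¬ (ends e).IsDiag)
    (hconn : (SimpleGraph.fromRel (fun u v : V => ∃ e, ends e = s(u, v))).Connected)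
    (hconn' : ∀ v : V, ((SimpleGraph.fromRel (fun u w : V => ∃ e, ends e = s(u, w))).induce
          {w : V | w ≠ v}).Connected)
    (hdeg : ∀ v : V, (Finset.univ.filter (fun e : E => v ∈ ends e)).card = 4)
    (T₁ T₂ : V → E → E) (h₁ : IsTransition ends T₁) (h₂ : IsTransition ends T₂)
    (hdis : ∀ v e, v ∈ ends e → T₁ v e ≠ T₂ v e)
    (hn : Fintype.card V ≤ numTrails ends T₁ + numTrails ends T₂ + 1) :
    ∃ C₁ C₂ : Finset (Finset E),
        (∀ S ∈ C₁, S.Nonempty ∧ (∀ v : V, Even (S.filter (fun e => v ∈ ends e)).card) ∧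
            ∀ T ⊆ S, T.Nonempty → (∀ v : V, Even (T.filter (fun e => v ∈ ends e)).card) → T = S) ∧
        (∀ e : E, ∃! S, S ∈ C₁ ∧ e ∈ S) ∧
        (∀ S ∈ C₂, S.Nonempty ∧ (∀ v : V, Even (S.filter (fun e => v ∈ ends e)).card) ∧
            ∀ T ⊆ S, T.Nonempty → (∀ v : V, Even (T.filter (fun e => v ∈ ends e)).card) → T = S) ∧
        (∀ e : E, ∃! S, S ∈ C₂ ∧ e ∈ S) ∧
        (∀ v : V, ∀ S₁ ∈ C₁, ∀ S₂ ∈ C₂,
            ((S₁ ∩ S₂).filter (fun e => v ∈ ends e)).card ≤ 1) := by
  obtain ⟨ed, hE⟩ := exists_Enum ends hloop hdeg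
  obtain ⟨a, ha0, ha⟩ := exists_label hE T₁ h₁
  obtain ⟨b, hb0, hb⟩ := exists_label hE T₂ h₂
  have hab : ∀ v, a v ≠ b v := by
    intro v h
    apply hdis v (ed v 0) (hE.mem v 0)
    rw [ha, hb, h]
  have e1 := trails_le hE hconn T₁ a ha0 ha
  have e2 := trails_le hE hconn T₂ b hb0 hb
  obtain ⟨T, T', hT, hT', hTT, hf, hf'⟩ := lag_main (GA_lag hE) (GA_clean hE hconn') a b ha0 hb0 hab
    (by omega)
  obtain ⟨c, hc⟩ := full_trans hE T hT hf
  obtain ⟨c', hc'⟩ := full_trans hE T' hT' hf'
  apply CCD.pair' ends _ _ c c' hc hc'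
  rintro v e f ⟨k, h3, h4⟩ ⟨l, h5, h6⟩
  have h7 : k = l := hE.inj v k l (h3.trans h5.symm)
  subst h7
  have h8 := hE.inj v _ _ (h4.trans h6.symm)
  exact hTT v (add_left_cancel h8)

end

end Pool.Agent.Helper45.SE
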