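import Pool.Agent.Helper45.SE.Form

/-!
Full pairs and the structure of a pair of small deficit.
-/

set_option autoImplicit false
set_option linter.all false

open Finset Module

namespace Pool.Agent.Helper45.SE

theorem dim_pair {E E' : Type*} [AddCommGroup E] [Module F2 E] [FiniteDimensional F2 E]
    [AddCommGroup E'] [Module F2 E'] [FiniteDimensional F2 E']
    (X : Submodule F2 E) (Y : Submodule F2 E') (j : E' →ₗ[F2] Dual F2 E)
    (hinj : ∀ y ∈ Y, j y = 0 → y = 0) (h : ∀ x ∈ X, ∀ y ∈ Y, j y x = 0) :
    finrank F2 X + finrank F2 Y ≤ finrank F2 E := by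
  have h1 : finrank F2 (Y.map j) = finrank F2 Y := by
    rw [← LinearMap.range_domRestrict]
    apply LinearMap.finrank_range_of_inj
    intro y y' hyy
    have h2 : j ((y : E') - y') = 0 := by
      rw [map_sub]; exact sub_eq_zero.2 hyy
    have h3 := hinj _ (Y.sub_mem y.2 y'.2) h2
    exact Subtype.ext (sub_eq_zero.1 h3)
  have h2 : Y.map j ≤ X.dualAnnihilator := by
    rintro _ ⟨y, hy, rfl⟩
    rw [Submodule.mem_dualAnnihilator]
    intro x hx
    exact h x hx y hy
  have h3 := Submodule.finrank_mono h2
  have h4 := Subspace.finrank_add_finrank_dualAnnihilator_eq X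
  rw [h1] at h3
  omega

theorem dim_ker {E E' : Type*} [AddCommGroup E] [Module F2 E] [FiniteDimensional F2 E]
    [AddCommGroup E'] [Module F2 E'] (L : Submodule F2 E) (f : E →ₗ[F2] E') :
    finrank F2 (L.map f) + finrank F2 (L ⊓ LinearMap.ker f : Submodule F2 E) = finrank F2 L := by
  have h1 := LinearMap.finrank_range_add_finrank_ker (f.domRestrict L)
  rw [LinearMap.range_domRestrict] at h1
  rw [← h1]
  congr 1
  rw [LinearMap.ker_domRestrict]
  have h2 : (L ⊓ LinearMap.ker f : Submodule F2 E) =
      ((LinearMap.ker f).submoduleOf L).map L.subtype := by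
    ext x
    constructor
    · rintro ⟨hx, hf⟩
      exact ⟨⟨x, hx⟩, hf, rfl⟩
    · rintro ⟨⟨y, hy⟩, hf, rfl⟩
      exact ⟨hy, hf⟩
  rw [h2]
  exact Submodule.finrank_map_subtype_eq L ((LinearMap.ker f).submoduleOf L)

theorem eq_of_finrank_le_one {E : Type*} [AddCommGroup E] [Module F2 E] [FiniteDimensional F2 E]
    (W : Submodule F2 E) (hW : finrank F2 W ≤ 1) {x y : E} (hx : x ∈ W) (hy : y ∈ W)
    (hx0 : x ≠ 0) (hy0 : y ≠ 0) : x = y := by
  obtain ⟨v, hv⟩ := finrank_le_one_iff.1 hW
  obtain ⟨c, hc⟩ := hv ⟨x, hx⟩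
  obtain ⟨c', hc'⟩ := hv ⟨y, hy⟩
  have e1 : c • (v : E) = x := congrArg Subtype.val hc
  have e2 : c' • (v : E) = y := congrArg Subtype.val hc'
  rcases f2_cases c with rfl | rfl
  · exact absurd (by rw [← e1, zero_smul]) hx0
  · rcases f2_cases c' with rfl | rfl
    · exact absurd (by rw [← e2, zero_smul]) hy0
    · rw [← e1, ← e2]

section
variable {V : Type*} [Fintype V] [DecidableEq V]

/-- agreement set -/
def Ag (a b : V → K4) : Finset V := univ.filter (fun v => a v = b v)

theorem mem_Ag {a b : V → K4} {v : V} : v ∈ Ag a b ↔ a v = b v := by simp [Ag]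

theorem Ag_comm (a b : V → K4) : Ag a b = Ag b a := by
  ext v; rw [mem_Ag, mem_Ag]; exact eq_comm

theorem finrank_space : finrank F2 (V → K4) = 2 * Fintype.card V := by
  rw [Module.finrank_pi_fintype]
  simp [Module.finrank_prod, mul_comm]

theorem lag_dim {L : Submodule F2 (V → K4)} (hL : Lag L) : finrank F2 L ≤ Fintype.card V := by
  have h := dim_pair L L
    { toFun := fun y => OmL y
      map_add' := fun y y' => LinearMap.ext fun x => Om_add_right x y y'
      map_smul' := fun c y => LinearMap.ext fun x => by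
        show Om x (c • y) = c * Om x y
        rw [Om_comm, Om_smul_left, Om_comm] }
    (by
      intro y _ hy
      have h0 : y ∈ (⊥ : Submodule F2 (V → K4)) := by
        apply sep
        intro z _
        rw [Om_comm]
        exact congrFun (congrArg DFunLike.coe hy) z
      exact (Submodule.mem_bot F2).1 h0)
    (fun x hx y hy => hL.om hx hy)
  rw [finrank_space] at h
  omega

/-- full pairs of the same deficit -/
theorem full_pair {L : Submodule F2 (V → K4)} (hL : Lag L) : ∀ (k : ℕ) (a b : V → K4),
    (∀ v, a v ≠ 0) → (∀ v, b v ≠ 0) →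
    Fintype.card V + (Ag a b).card ≤ finrank F2 (LT L a) + finrank F2 (LT L b) + 3 →
    4 * Fintype.card V ≤ finrank F2 (LT L a) + finrank F2 (LT L b) + k →
    ∃ a' b' : V → K4, (∀ v, a' v ≠ 0) ∧ (∀ v, b' v ≠ 0) ∧ Full L a' ∧ Full L b' ∧
      Fintype.card V + (Ag a' b').card ≤ finrank F2 (LT L a') + finrank F2 (LT L b') + 3 := by
  intro k
  have hbd : ∀ T : V → K4, finrank F2 (LT L T) ≤ 2 * Fintype.card V := by
    intro T
    rw [← finrank_space (V := V)]
    exact Submodule.finrank_le _
  have hag : ∀ (a b : V → K4) (v : V) (t : K4),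
      (Ag (Function.update a v t) b).card ≤ (Ag a b).card + 1 := by
    intro a b v t
    have h1 : Ag (Function.update a v t) b ⊆ insert v (Ag a b) := by
      intro u hu
      rw [Finset.mem_insert]
      by_cases huv : u = v
      · exact Or.inl huv
      · right
        rw [mem_Ag] at hu ⊢
        rwa [Function.update_of_ne huv] at hu
    exact (Finset.card_le_card h1).trans (Finset.card_insert_le _ _)
  have hup : ∀ (a : V → K4) (v : V) (t : K4), (∀ v, a v ≠ 0) → t ≠ 0 →
      ∀ u, Function.update a v t u ≠ 0 := by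
    intro a v t ha ht u
    by_cases huv : u = v
    · subst huv; rwa [Function.update_self]
    · rw [Function.update_of_ne huv]; exact ha u
  induction k with
  | zero =>
    intro a b ha hb h1 h2
    refine ⟨a, b, ha, hb, ?_, ?_, h1⟩
    · by_contra hf
      unfold Full at hf
      push Not at hf
      obtain ⟨v, hv⟩ := hf
      obtain ⟨t, _, _, h⟩ := raise hL a ha v hv
      have e1 := hbd (Function.update a v t)
      have e2 := hbd b
      omega
    · by_contra hf
      unfold Full at hf
      push Not at hf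
      obtain ⟨v, hv⟩ := hf
      obtain ⟨t, _, _, h⟩ := raise hL b hb v hv
      have e1 := hbd (Function.update b v t)
      have e2 := hbd a
      omega
  | succ k ih =>
    intro a b ha hb h1 h2
    by_cases hfa : Full L a
    · by_cases hfb : Full L b
      · exact ⟨a, b, ha, hb, hfa, hfb, h1⟩
      · unfold Full at hfb
        push Not at hfb
        obtain ⟨v, hv⟩ := hfb
        obtain ⟨t, ht, _, h⟩ := raise hL b hb v hv
        have e1 := hag b a v t
        rw [Ag_comm, Ag_comm b a] at e1
        exact ih a (Function.update b v t) ha (hup b v t hb ht) (by omega) (by omega)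
    · unfold Full at hfa
      push Not at hfa
      obtain ⟨v, hv⟩ := hfa
      obtain ⟨t, ht, _, h⟩ := raise hL a ha v hv
      have e1 := hag a b v t
      exact ih (Function.update a v t) b (hup a v t ha ht) hb (by omega) (by omega)

/-- clean -/
def Clean (L : Submodule F2 (V → K4)) : Prop :=
  ∀ (v : V) (k : K4), k ≠ 0 → (Pi.single v k : V → K4) ∉ L

/-- `M` -/
def MM (L : Submodule F2 (V → K4)) (a b : V → K4) : Submodule F2 (V → K4) where
  carrier := {x | x ∈ L ∧ ∀ v, a v = b v → om (x v) (a v) = 0}
  add_mem' := by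
    rintro x y ⟨hx, hx'⟩ ⟨hy, hy'⟩
    refine ⟨L.add_mem hx hy, fun v hv => ?_⟩
    show om (x v + y v) (a v) = 0
    rw [om_add_left, hx' v hv, hy' v hv, add_zero]
  zero_mem' := ⟨L.zero_mem, fun v _ => om_zero_left _⟩
  smul_mem' := by
    rintro c x ⟨hx, hx'⟩
    refine ⟨L.smul_mem c hx, fun v hv => ?_⟩
    show om (c • x v) (a v) = 0
    rw [om_smul_left, hx' v hv, mul_zero]

theorem mem_MM {L : Submodule F2 (V → K4)} {a b x : V → K4} :
    x ∈ MM L a b ↔ x ∈ L ∧ ∀ v, a v = b v → om (x v) (a v) = 0 := Iff.rfl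

/-- `D` -/
def DD (L : Submodule F2 (V → K4)) (a b : V → K4) : Submodule F2 (V → K4) := LT L a ⊔ LT L b

theorem DD_le_MM (L : Submodule F2 (V → K4)) (a b : V → K4) : DD L a b ≤ MM L a b := by
  apply sup_le
  · intro x hx
    exact ⟨(mem_LT.1 hx).1, fun v _ => (mem_LT.1 hx).2 v⟩
  · intro x hx
    exact ⟨(mem_LT.1 hx).1, fun v hv => by rw [hv]; exact (mem_LT.1 hx).2 v⟩

theorem exists_one {L : Submodule F2 (V → K4)} (hL : Lag L) (hc : Clean L) (v : V) (k : K4)
    (hk : k ≠ 0) : ∃ y ∈ L, om (y v) k = 1 := by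
  by_contra hcon
  push Not at hcon
  apply hc v k hk
  rw [hL]
  intro y hy
  rw [Om_single, om_comm]
  exact (f2_ne_one _).1 (hcon y hy)

/-- the projection to the agreement set -/
def rho (a b : V → K4) : (V → K4) →ₗ[F2] (↥(Ag a b) → F2) where
  toFun x u := om (x u) (a u)
  map_add' x y := by funext u; exact om_add_left _ _ _
  map_smul' c x := by funext u; exact om_smul_left _ _ _

theorem structure_pair {L : Submodule F2 (V → K4)} (hL : Lag L) (hc : Clean L) (a b : V → K4)
    (ha : ∀ v, a v ≠ 0) (hb : ∀ v, b v ≠ 0) (hU : ∃ v, a v = b v)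
    (hd : Fintype.card V + (Ag a b).card ≤ finrank F2 (LT L a) + finrank F2 (LT L b) + 3) :
    (∀ x ∈ L, (∀ v, a v = b v → om (x v) (a v) = 0) ∨ (∀ v, a v = b v → om (x v) (a v) = 1)) ∧
    (∀ x ∈ MM L a b, ∀ y ∈ MM L a b, x ∈ DD L a b ∨ y ∈ DD L a b ∨ x + y ∈ DD L a b) := by
  have hM : MM L a b = L ⊓ LinearMap.ker (rho a b) := by
    ext x
    rw [mem_MM, Submodule.mem_inf, LinearMap.mem_ker]
    constructor
    · rintro ⟨h1, h2⟩
      exact ⟨h1, funext fun u => h2 u (mem_Ag.1 u.2)⟩
    · rintro ⟨h1, h2⟩
      exact ⟨h1, fun v hv => congrFun h2 ⟨v, mem_Ag.2 hv⟩⟩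
  have h1 := dim_ker L (rho a b)
  rw [← hM] at h1
  have h2 := lag_dim hL
  have hother : ∀ v, ∃ s : K4, om s (a v) = 1 := fun v => exists_other _ (ha v)
  choose s hs using hother
  have h3 : finrank F2 (L.map (rho a b)) + finrank F2 (LT L a ⊓ LT L b : Submodule F2 (V → K4)) ≤
      (Ag a b).card := by
    have := dim_pair (L.map (rho a b)) (LT L a ⊓ LT L b)
      { toFun := fun y =>
          { toFun := fun f => ∑ u : ↥(Ag a b), om (y u) (s u) * f u
            map_add' := fun f g => by
              rw [← Finset.sum_add_distrib]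
              exact Finset.sum_congr rfl fun u _ => by rw [Pi.add_apply, mul_add]
            map_smul' := fun c f => by
              rw [RingHom.id_apply, smul_eq_mul, Finset.mul_sum]
              exact Finset.sum_congr rfl fun u _ => by
                rw [Pi.smul_apply, smul_eq_mul, mul_left_comm] }
        map_add' := fun y y' => LinearMap.ext fun f => by
          show ∑ u : ↥(Ag a b), om (y u + y' u) (s u) * f u = _ + _
          simp only [om_add_left, add_mul]
          exact Finset.sum_add_distrib
        map_smul' := fun c y => LinearMap.ext fun f => by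
          show ∑ u : ↥(Ag a b), om (c • y u) (s u) * f u = c * _
          simp only [om_smul_left, mul_assoc]
          exact (Finset.mul_sum _ _ _).symm }
      (by
        rintro y ⟨hya, hyb⟩ hy
        funext v
        by_cases hv : a v = b v
        · have e1 : om (y v) (s v) = 0 := by
            have := congrFun (congrArg DFunLike.coe hy) (Pi.single ⟨v, mem_Ag.2 hv⟩ 1)
            have e2 : ∑ u : ↥(Ag a b), om (y u) (s u) *
                (Pi.single (⟨v, mem_Ag.2 hv⟩ : ↥(Ag a b)) (1 : F2) : ↥(Ag a b) → F2) u = 0 := this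
            rw [Finset.sum_eq_single (⟨v, mem_Ag.2 hv⟩ : ↥(Ag a b))] at e2
            · rw [Pi.single_eq_same, mul_one] at e2
              exact e2
            · intro u _ hu
              rw [Pi.single_eq_of_ne hu, mul_zero]
            · intro h; exact absurd (Finset.mem_univ _) h
          exact om_both _ (s v) (a v) (hs v) e1 ((mem_LT.1 hya).2 v)
        · exact om_both _ (a v) (b v) (om_ne _ _ (ha v) (hb v) hv) ((mem_LT.1 hya).2 v)
            ((mem_LT.1 hyb).2 v))
      (by
        rintro _ ⟨x, hx, rfl⟩ y ⟨hya, hyb⟩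
        show ∑ u : ↥(Ag a b), om (y u) (s u) * om (x u) (a u) = 0
        have e1 := hL.om (mem_LT.1 hya).1 hx
        rw [← e1]
        unfold Om
        rw [Finset.sum_coe_sort (Ag a b)
          (fun u => om (y u) (s u) * om (x u) (a u))]
        have e2 : ∑ v, om (y v) (x v) = ∑ v ∈ Ag a b, om (y v) (x v) := by
          symm
          apply Finset.sum_subset (Finset.subset_univ _)
          intro v _ hv
          rw [mem_Ag] at hv
          rw [om_both _ (a v) (b v) (om_ne _ _ (ha v) (hb v) hv) ((mem_LT.1 hya).2 v)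
            ((mem_LT.1 hyb).2 v), om_zero_left]
        rw [e2]
        apply Finset.sum_congr rfl
        intro v hv
        have e3 := om_basis (y v) (x v) (s v) (a v) (hs v)
        rw [(mem_LT.1 hya).2 v, zero_mul, zero_add] at e3
        rw [e3])
    rwa [Module.finrank_pi, Fintype.card_coe] at this
  have h4 := Submodule.finrank_sup_add_finrank_inf_eq (LT L a) (LT L b)
  have h5 := Submodule.finrank_mono (DD_le_MM L a b)
  have h4' : finrank F2 (DD L a b) + finrank F2 (LT L a ⊓ LT L b : Submodule F2 (V → K4)) =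
      finrank F2 (LT L a) + finrank F2 (LT L b) := h4
  have hr1 : finrank F2 (L.map (rho a b)) ≤ 1 := by omega
  obtain ⟨u0, hu0⟩ := hU
  have hr2 : 1 ≤ finrank F2 (L.map (rho a b)) := by
    obtain ⟨y, hy, hy1⟩ := exists_one hL hc u0 (a u0) (ha u0)
    rw [Nat.one_le_iff_ne_zero]
    intro h0
    rw [Submodule.finrank_eq_zero] at h0
    have e1 : rho a b y ∈ L.map (rho a b) := ⟨y, hy, rfl⟩
    rw [h0, Submodule.mem_bot] at e1
    have e2 : om (y u0) (a u0) = 0 := congrFun e1 ⟨u0, mem_Ag.2 hu0⟩
    rw [hy1] at e2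
    exact absurd e2 (by decide)
  constructor
  · intro x hx
    by_cases h0 : rho a b x = 0
    · exact Or.inl fun v hv => congrFun h0 ⟨v, mem_Ag.2 hv⟩
    · right
      intro v hv
      obtain ⟨y, hy, hy1⟩ := exists_one hL hc v (a v) (ha v)
      have hy0 : rho a b y ≠ 0 := by
        intro h
        have e2 : om (y v) (a v) = 0 := congrFun h ⟨v, mem_Ag.2 hv⟩
        rw [hy1] at e2
        exact absurd e2 (by decide)
      have e1 := eq_of_finrank_le_one _ hr1 (x := rho a b x) (y := rho a b y) ⟨x, hx, rfl⟩
        ⟨y, hy, rfl⟩ h0 hy0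
      have e2 : om (x v) (a v) = om (y v) (a v) := congrFun e1 ⟨v, mem_Ag.2 hv⟩
      rw [e2, hy1]
  · intro x hx y hy
    by_cases hxD : x ∈ DD L a b
    · exact Or.inl hxD
    · right
      have e1 : DD L a b < DD L a b ⊔ Submodule.span F2 {x} := by
        refine lt_of_le_of_ne le_sup_left fun h => hxD ?_
        rw [h]
        exact Submodule.mem_sup_right (Submodule.mem_span_singleton_self x)
      have e2 := Submodule.finrank_lt_finrank_of_lt e1
      have e3 : DD L a b ⊔ Submodule.span F2 {x} ≤ MM L a b := by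
        apply sup_le (DD_le_MM L a b)
        rw [Submodule.span_singleton_le_iff_mem]
        exact hx
      have e4 : DD L a b ⊔ Submodule.span F2 {x} = MM L a b :=
        Submodule.eq_of_le_of_finrank_le e3 (by omega)
      rw [← e4] at hy
      obtain ⟨d, hd', z, hz, e⟩ := Submodule.mem_sup.1 hy
      obtain ⟨c, rfl⟩ := Submodule.mem_span_singleton.1 hz
      rcases f2_cases c with rfl | rfl
      · left
        rw [← e, zero_smul, add_zero]; exact hd'
      · right
        rw [← e, one_smul, add_left_comm, vself, add_zero]; exact hd'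

end

end Pool.Agent.Helper45.SE
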