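import Pool.Agent.Helper45.SE.Pair

/-!
Repairing one side of a full pair.
-/

set_option autoImplicit false
set_option linter.all false

open Finset Module

namespace Pool.Agent.Helper45.SE

theorem om_par (x y t : K4) : t ≠ 0 → om x t = 0 → om y t = 0 → om x y = 0 := by
  revert x y t; decide

section
variable {V : Type*} [Fintype V] [DecidableEq V]

/-- the intersection form -/
def be (a b y x : V → K4) : F2 :=
  ∑ v, if a v = b v then 0 else om (y v) (b v) * om (x v) (a v)

theorem be_add_left (a b y y' x : V → K4) : be a b (y + y') x = be a b y x + be a b y' x := by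
  unfold be
  rw [← Finset.sum_add_distrib]
  refine Finset.sum_congr rfl fun v _ => ?_
  split_ifs
  · rw [add_zero]
  · rw [Pi.add_apply, om_add_left, add_mul]

theorem be_add_right (a b y x x' : V → K4) : be a b y (x + x') = be a b y x + be a b y x' := by
  unfold be
  rw [← Finset.sum_add_distrib]
  refine Finset.sum_congr rfl fun v _ => ?_
  split_ifs
  · rw [add_zero]
  · rw [Pi.add_apply, om_add_left, mul_add]

theorem be_congr (a b y x x' : V → K4) (h : ∀ v, om (x v) (a v) = om (x' v) (a v)) :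
    be a b y x = be a b y x' :=
  Finset.sum_congr rfl fun v _ => by rw [h v]

theorem be_swap (a b y x : V → K4) : be b a y x = be a b x y := by
  refine Finset.sum_congr rfl fun v _ => ?_
  by_cases h : a v = b v
  · rw [if_pos h, if_pos h.symm]
  · rw [if_neg h, if_neg (Ne.symm h), mul_comm]

/-- `x ↦ β(y, x)` -/
def beL (a b y : V → K4) : (V → K4) →ₗ[F2] F2 where
  toFun x := be a b y x
  map_add' x x' := be_add_right a b y x x'
  map_smul' c x := by
    show be a b y (c • x) = c * be a b y x
    unfold be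
    rw [Finset.mul_sum]
    refine Finset.sum_congr rfl fun v _ => ?_
    split_ifs
    · rw [mul_zero]
    · rw [Pi.smul_apply, om_smul_left, mul_left_comm]

theorem be_symm {L : Submodule F2 (V → K4)} (hL : Lag L) {a b : V → K4}
    (ha : ∀ v, a v ≠ 0) (hb : ∀ v, b v ≠ 0) {x y : V → K4} (hx : x ∈ MM L a b)
    (hy : y ∈ MM L a b) : be a b y x = be a b x y := by
  apply f2_eq
  have h := hL.om (mem_MM.1 hy).1 (mem_MM.1 hx).1
  rw [← h]
  unfold be Om
  rw [← Finset.sum_add_distrib]
  refine Finset.sum_congr rfl fun v _ => ?_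
  by_cases hv : a v = b v
  · rw [if_pos hv, if_pos hv, add_zero]
    exact (om_par _ _ _ (ha v) ((mem_MM.1 hy).2 v hv) ((mem_MM.1 hx).2 v hv)).symm
  · rw [if_neg hv, if_neg hv, om_basis (y v) (x v) (a v) (b v) (om_ne _ _ (ha v) (hb v) hv),
      mul_comm (om (x v) (b v))]

theorem be_D {L : Submodule F2 (V → K4)} (hL : Lag L) {a b : V → K4}
    (ha : ∀ v, a v ≠ 0) (hb : ∀ v, b v ≠ 0) {x y : V → K4} (hx : x ∈ DD L a b)
    (hy : y ∈ MM L a b) : be a b y x = 0 := by
  obtain ⟨x1, h1, x2, h2, rfl⟩ := Submodule.mem_sup.1 hx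
  have e1 : be a b y x1 = 0 := by
    refine Finset.sum_eq_zero fun v _ => ?_
    rw [(mem_LT.1 h1).2 v, mul_zero, ite_self]
  have e2 : be a b y x2 = 0 := by
    rw [be_symm hL ha hb (DD_le_MM L a b (Submodule.mem_sup_right h2)) hy]
    refine Finset.sum_eq_zero fun v _ => ?_
    rw [(mem_LT.1 h2).2 v, zero_mul, ite_self]
  rw [be_add_right, e1, e2, add_zero]

theorem exists_c {L : Submodule F2 (V → K4)} (hL : Lag L) {a b : V → K4}
    (ha : ∀ v, a v ≠ 0) (hb : ∀ v, b v ≠ 0)
    (h2 : ∀ x ∈ MM L a b, ∀ y ∈ MM L a b, x ∈ DD L a b ∨ y ∈ DD L a b ∨ x + y ∈ DD L a b) :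
    ∃ c : (V → K4) →ₗ[F2] F2,
      (∀ y ∈ MM L a b, ∀ x ∈ MM L a b, be a b y x = c y * c x) ∧
      (∀ x ∈ DD L a b, c x = 0) ∧
      (∀ m ∈ MM L a b, c m = 1 → ∀ x ∈ MM L a b, c x = 0 → x ∈ DD L a b) := by
  by_cases hm : ∃ m ∈ MM L a b, be a b m m = 1
  · obtain ⟨m, hm, hmm⟩ := hm
    have hmD : m ∉ DD L a b := by
      intro h
      have := be_D hL ha hb h hm
      rw [hmm] at this
      exact absurd this (by decide)
    have hcase : ∀ x ∈ MM L a b, (x ∈ DD L a b ∧ be a b m x = 0) ∨
        (x ∉ DD L a b ∧ x + m ∈ DD L a b ∧ be a b m x = 1) := by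
      intro x hx
      by_cases hxD : x ∈ DD L a b
      · exact Or.inl ⟨hxD, be_D hL ha hb hxD hm⟩
      · right
        have hxm : x + m ∈ DD L a b := by
          rcases h2 x hx m hm with h | h | h
          · exact absurd h hxD
          · exact absurd h hmD
          · exact h
        refine ⟨hxD, hxm, ?_⟩
        have := be_D hL ha hb hxm hm
        rw [be_add_right, hmm] at this
        exact f2_eq _ _ this
    refine ⟨beL a b m, ?_, fun x hx => be_D hL ha hb hx hm, ?_⟩
    · intro y hy x hx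
      show be a b y x = be a b m y * be a b m x
      rcases hcase x hx with ⟨h1, e1⟩ | ⟨h1, h1', e1⟩
      · rw [e1, mul_zero]; exact be_D hL ha hb h1 hy
      · rcases hcase y hy with ⟨h3, e3⟩ | ⟨h3, h3', e3⟩
        · rw [e3, zero_mul, be_symm hL ha hb hx hy]; exact be_D hL ha hb h3 hx
        · rw [e1, e3, mul_one]
          have e4 := be_D hL ha hb h1' hy
          rw [be_add_right, be_symm hL ha hb hm hy] at e4
          rw [f2_eq _ _ e4, e3]
    · intro _ _ _ x hx hx0
      rcases hcase x hx with ⟨h1, _⟩ | ⟨_, _, e1⟩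
      · exact h1
      · exact absurd (hx0.symm.trans e1) (by decide)
  · push Not at hm
    refine ⟨0, ?_, fun _ _ => rfl, ?_⟩
    · intro y hy x hx
      show be a b y x = 0 * 0
      rw [mul_zero]
      rcases h2 x hx y hy with h | h | h
      · exact be_D hL ha hb h hy
      · rw [be_symm hL ha hb hx hy]; exact be_D hL ha hb h hx
      · have e := be_D hL ha hb h hy
        rw [be_add_right, (f2_ne_one _).1 (hm y hy), add_zero] at e
        exact e
    · intro m _ h
      exact absurd h (by show (0 : F2) ≠ 1; decide)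

/-- support of the second coordinate -/
def sp (a z : V → K4) : Finset V := univ.filter (fun v => om (z v) (a v) = 1)

theorem mem_sp {a z : V → K4} {v : V} : v ∈ sp a z ↔ om (z v) (a v) = 1 := by simp [sp]

/-- elements crossing the agreement set -/
def MC (L : Submodule F2 (V → K4)) (a b z : V → K4) : Prop :=
  z ∈ L ∧ ∀ v, a v = b v → om (z v) (a v) = 1

/-- minimal crossing elements -/
def Mn (L : Submodule F2 (V → K4)) (a b z : V → K4) : Prop :=
  MC L a b z ∧ ∀ z', MC L a b z' → (sp a z).card ≤ (sp a z').card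

/-- `q` is parallel to the element `w` of the support of `z` -/
def Pr (L : Submodule F2 (V → K4)) (a b z : V → K4) (q w : V) (y : V → K4) : Prop :=
  om (z q) (a q) = 0 ∧ om (z w) (a w) = 1 ∧ a w ≠ b w ∧ y ∈ MM L a b ∧
    ∀ v, om (y v) (a v) = 1 ↔ v = q ∨ v = w

theorem MC.add_MM {L : Submodule F2 (V → K4)} {a b z y : V → K4} (hz : MC L a b z)
    (hy : y ∈ MM L a b) : MC L a b (z + y) := by
  refine ⟨L.add_mem hz.1 (mem_MM.1 hy).1, fun v hv => ?_⟩
  rw [Pi.add_apply, om_add_left, hz.2 v hv, (mem_MM.1 hy).2 v hv, add_zero]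

theorem MC.add_MC {L : Submodule F2 (V → K4)} {a b z y : V → K4} (hz : MC L a b z)
    (hy : MC L a b y) : z + y ∈ MM L a b := by
  refine ⟨L.add_mem hz.1 hy.1, fun v hv => ?_⟩
  rw [Pi.add_apply, om_add_left, hz.2 v hv, hy.2 v hv]; decide

theorem exists_Mn {L : Submodule F2 (V → K4)} {a b : V → K4} (h : ∃ z, MC L a b z) :
    ∃ z, Mn L a b z := by
  classical
  have h1 : ∃ n, ∃ z, MC L a b z ∧ (sp a z).card = n := by
    obtain ⟨z, hz⟩ := h; exact ⟨_, z, hz, rfl⟩
  obtain ⟨z, hz, hn⟩ := Nat.find_spec h1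
  refine ⟨z, hz, fun z' hz' => ?_⟩
  rw [hn]
  exact Nat.find_min' h1 ⟨z', hz', rfl⟩

theorem Pr.ne {L : Submodule F2 (V → K4)} {a b z y : V → K4} {q w : V} (h : Pr L a b z q w y) :
    q ≠ w := by
  rintro rfl
  have := h.1.symm.trans h.2.1
  exact absurd this (by decide)

theorem Pr.ab {L : Submodule F2 (V → K4)} {a b z y : V → K4} {q w : V} (hz : MC L a b z)
    (h : Pr L a b z q w y) : a q ≠ b q := by
  intro hq
  have := h.1.symm.trans (hz.2 q hq)
  exact absurd this (by decide)

/-- lower bound for the support of a crossing element -/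
theorem Mn.sub {L : Submodule F2 (V → K4)} {a b z : V → K4} (hz : Mn L a b z) {z' : V → K4}
    (hz' : MC L a b z') (hs : sp a z' ⊆ sp a z) : sp a z' = sp a z :=
  Finset.eq_of_subset_of_card_le hs (hz.2 z' hz')

theorem lemP {L : Submodule F2 (V → K4)} (hL : Lag L) {a b : V → K4}
    (ha : ∀ v, a v ≠ 0) (hb : ∀ v, b v ≠ 0) (hfull : Full L a)
    (hi : ∀ x ∈ L, (∀ v, a v = b v → om (x v) (a v) = 0) ∨ (∀ v, a v = b v → om (x v) (a v) = 1))
    {z : V → K4} (hz : Mn L a b z) (q : V) (hq : om (z q) (a q) = 0) :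
    (∃ x ∈ LT L a, (∀ v, om (z v) (a v) = 1 → x v = 0) ∧ x q ≠ 0) ∨
    (∃ w y, Pr L a b z q w y) := by
  by_cases hcut : ∃ x ∈ LT L a, (∀ v, om (z v) (a v) = 1 → x v = 0) ∧ x q ≠ 0
  · exact Or.inl hcut
  right
  push Not at hcut
  obtain ⟨s, hs⟩ := exists_other (a q) (ha q)
  let B : Submodule F2 (V → K4) :=
    { carrier := {x | ∀ v, om (z v) (a v) = 0 → om (x v) (a v) = 0}
      add_mem' := by
        intro x y hx hy v hv
        show om (x v + y v) (a v) = 0
        rw [om_add_left, hx v hv, hy v hv, add_zero]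
      zero_mem' := fun v _ => om_zero_left _
      smul_mem' := by
        intro c x hx v hv
        show om (c • x v) (a v) = 0
        rw [om_smul_left, hx v hv, mul_zero] }
  obtain ⟨x, hx, t, ht, e⟩ := hL.split B (Pi.single q s) (by
    intro y hy h
    rw [Om_single]
    have hy1 : ∀ v k, (om (z v) (a v) = 0 → om k (a v) = 0) → om k (y v) = 0 := by
      intro v k hk
      rw [← Om_single]
      apply h
      intro u hu
      by_cases huv : u = v
      · subst huv; rw [Pi.single_eq_same]; exact hk hu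
      · rw [Pi.single_eq_of_ne huv, om_zero_left]
    have hy2 : y q = 0 := by
      apply hcut y
      · refine mem_LT.2 ⟨hy, fun v => ?_⟩
        rw [om_comm]
        exact hy1 v (a v) fun _ => om_self _
      · intro v hv
        obtain ⟨s', hs'⟩ := exists_other (a v) (ha v)
        apply om_both (y v) s' (a v) hs'
        · rw [om_comm]
          exact hy1 v s' fun h0 => absurd (hv.symm.trans h0) (by decide)
        · rw [om_comm]
          exact hy1 v (a v) fun _ => om_self _
    rw [hy2, om_zero_right])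
  have hxq : om (x q) (a q) = 1 := by
    have h1 := congrFun e q
    rw [Pi.single_eq_same] at h1
    rw [← hs, ← h1]
    show _ = om (x q + t q) (a q)
    rw [om_add_left, ht q hq, add_zero]
  have hxv : ∀ v, v ≠ q → om (z v) (a v) = 0 → om (x v) (a v) = 0 := by
    intro v hv h0
    have h1 := congrFun e v
    rw [Pi.single_eq_of_ne hv] at h1
    rw [k4_eq _ _ h1]
    exact ht v h0
  -- an element of `M`
  obtain ⟨y, hyM, hyq, hyv⟩ : ∃ y ∈ MM L a b, om (y q) (a q) = 1 ∧
      ∀ v, v ≠ q → om (z v) (a v) = 0 → om (y v) (a v) = 0 := by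
    rcases hi x hx with h | h
    · exact ⟨x, ⟨hx, h⟩, hxq, hxv⟩
    · refine ⟨x + z, MC.add_MC ⟨hx, h⟩ hz.1, ?_, ?_⟩
      · rw [Pi.add_apply, om_add_left, hxq, hq, add_zero]
      · intro v hv h0
        rw [Pi.add_apply, om_add_left, hxv v hv h0, h0, add_zero]
  have hzy := hz.1.add_MM hyM
  have hcard := hz.2 _ hzy
  -- the common support
  set C : Finset V := (sp a z).filter (fun v => om (y v) (a v) = 1) with hC
  have hqz : q ∉ sp a z := by
    rw [mem_sp, hq]; decide
  have hsp : sp a (z + y) ⊆ insert q (sp a z \ C) := by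
    intro v hv
    rw [mem_sp, Pi.add_apply, om_add_left] at hv
    rw [Finset.mem_insert, Finset.mem_sdiff]
    by_cases hvq : v = q
    · exact Or.inl hvq
    · right
      rcases f2_cases (om (z v) (a v)) with h0 | h0
      · rw [h0, hyv v hvq h0] at hv
        exact absurd hv (by decide)
      · refine ⟨mem_sp.2 h0, fun h1 => ?_⟩
        rw [h0, (Finset.mem_filter.1 h1).2] at hv
        exact absurd hv (by decide)
  have hC1 : C.card ≤ 1 := by
    have h1 := Finset.card_le_card hsp
    have h2 := Finset.card_insert_le q (sp a z \ C)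
    have h3 := Finset.card_sdiff_add_card_eq_card (Finset.filter_subset (fun v => om (y v) (a v) = 1) (sp a z))
    rw [← hC] at h3
    omega
  have hC0 : C.Nonempty := by
    rw [Finset.nonempty_iff_ne_empty]
    intro hemp
    obtain ⟨x', hx', hx'q⟩ := hfull q
    have h1 := hL.om (mem_LT.1 hx').1 (mem_MM.1 hyM).1
    have h2 : Om x' y = om (x' q) (y q) := by
      unfold Om
      rw [Finset.sum_eq_single q]
      · intro v _ hv
        apply om_par _ _ (a v) (ha v) ((mem_LT.1 hx').2 v)
        rcases f2_cases (om (z v) (a v)) with h0 | h0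
        · exact hyv v hv h0
        · by_contra h3
          have : v ∈ C := Finset.mem_filter.2 ⟨mem_sp.2 h0, (f2_ne_zero _).1 h3⟩
          rw [hemp] at this
          exact absurd this (Finset.notMem_empty _)
      · intro h; exact absurd (Finset.mem_univ _) h
    rcases om_eq_zero _ _ (ha q) ((mem_LT.1 hx').2 q) with h3 | h3
    · exact hx'q h3
    · rw [h2, h3, om_comm, hyq] at h1
      exact absurd h1 (by decide)
  obtain ⟨w, hw⟩ := hC0
  obtain ⟨hw1, hw2⟩ := Finset.mem_filter.1 hw
  refine ⟨w, y, hq, mem_sp.1 hw1, ?_, hyM, ?_⟩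
  · intro h
    have := (mem_MM.1 hyM).2 w h
    rw [hw2] at this
    exact absurd this (by decide)
  · intro v
    constructor
    · intro hv
      by_cases hvq : v = q
      · exact Or.inl hvq
      · right
        rcases f2_cases (om (z v) (a v)) with h0 | h0
        · rw [hyv v hvq h0] at hv; exact absurd hv (by decide)
        · exact Finset.card_le_one.1 hC1 v (Finset.mem_filter.2 ⟨mem_sp.2 h0, hv⟩) w hw
    · rintro (rfl | rfl)
      · exact hyq
      · exact hw2

theorem Pr.uniq {L : Submodule F2 (V → K4)} {a b z y y' : V → K4} {q w w' : V}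
    (hz : Mn L a b z) (h : Pr L a b z q w y) (h' : Pr L a b z q w' y') : w = w' := by
  by_contra hww
  have h1 : y + y' ∈ MM L a b := Submodule.add_mem _ h.2.2.2.1 h'.2.2.2.1
  have h2 := hz.1.add_MM h1
  have hv0 : ∀ v, om (y v) (a v) = if v = q ∨ v = w then 1 else 0 := by
    intro v
    by_cases hv : v = q ∨ v = w
    · rw [if_pos hv]; exact (h.2.2.2.2 v).2 hv
    · rw [if_neg hv]
      exact (f2_ne_one _).1 fun h3 => hv ((h.2.2.2.2 v).1 h3)
  have hv1 : ∀ v, om (y' v) (a v) = if v = q ∨ v = w' then 1 else 0 := by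
    intro v
    by_cases hv : v = q ∨ v = w'
    · rw [if_pos hv]; exact (h'.2.2.2.2 v).2 hv
    · rw [if_neg hv]
      exact (f2_ne_one _).1 fun h3 => hv ((h'.2.2.2.2 v).1 h3)
  have hwq := h.ne
  have hwq' := h'.ne
  have h3 : sp a (z + (y + y')) ⊆ sp a z := by
    intro v hv
    rw [mem_sp, Pi.add_apply, Pi.add_apply, om_add_left, om_add_left, hv0, hv1] at hv
    rw [mem_sp]
    by_cases e1 : v = q
    · subst e1
      rw [h.1, if_pos (Or.inl rfl), if_pos (Or.inl rfl)] at hv
      exact absurd hv (by decide)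
    · by_cases e2 : v = w
      · rw [e2]; exact h.2.1
      · by_cases e3 : v = w'
        · rw [e3]; exact h'.2.1
        · rw [if_neg (by rintro (h5 | h5); exacts [e1 h5, e2 h5]),
            if_neg (by rintro (h5 | h5); exacts [e1 h5, e3 h5])] at hv
          simpa using hv
  have h4 := hz.sub h2 h3
  have h5 : w ∈ sp a (z + (y + y')) := by rw [h4]; exact mem_sp.2 h.2.1
  rw [mem_sp, Pi.add_apply, Pi.add_apply, om_add_left, om_add_left, hv0, hv1, h.2.1,
    if_pos (Or.inr rfl), if_neg (by rintro (h6 | h6); exacts [hwq h6.symm, hww h6])] at h5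
  exact absurd h5 (by decide)

theorem Pr.be_eq {L : Submodule F2 (V → K4)} {a b z y : V → K4} {q w : V} (hz : MC L a b z)
    (h : Pr L a b z q w y) (x : V → K4) : be a b x y = om (x q) (b q) + om (x w) (b w) := by
  have hne := h.ne
  have hq := h.ab hz
  have h1 : be a b x y = ∑ v, ((if v = q then om (x q) (b q) else 0) +
      (if v = w then om (x w) (b w) else 0)) := by
    refine Finset.sum_congr rfl fun v _ => ?_
    by_cases e1 : v = q
    · subst e1
      rw [if_neg hq, (h.2.2.2.2 v).2 (Or.inl rfl), if_pos rfl, if_neg hne, mul_one, add_zero]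
    · by_cases e2 : v = w
      · subst e2
        rw [if_neg h.2.2.1, (h.2.2.2.2 v).2 (Or.inr rfl), if_neg e1, if_pos rfl, mul_one, zero_add]
      · rw [if_neg e1, if_neg e2, add_zero]
        have : om (y v) (a v) = 0 :=
          (f2_ne_one _).1 fun h3 => ((h.2.2.2.2 v).1 h3).elim e1 e2
        rw [this, mul_zero, ite_self]
  rw [h1, Finset.sum_add_distrib, Finset.sum_ite_eq', Finset.sum_ite_eq', if_pos (Finset.mem_univ _),
    if_pos (Finset.mem_univ _)]

end

end Pool.Agent.Helper45.SE
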