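import Pool.Agent.Helper45.SE.Build

/-!
The two sides of a full pair.
-/

set_option autoImplicit false
set_option linter.all false

open Finset Module

namespace Pool.Agent.Helper45.SE

section
variable {V : Type*} [Fintype V] [DecidableEq V]

theorem build_sel {L : Submodule F2 (V → K4)} (hL : Lag L) {a b : V → K4}
    (ha : ∀ v, a v ≠ 0) (hb : ∀ v, b v ≠ 0) (hfull : Full L a) (hU : ∃ v, a v = b v)
    (hi : ∀ x ∈ L, (∀ v, a v = b v → om (x v) (a v) = 0) ∨ (∀ v, a v = b v → om (x v) (a v) = 1))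
    (c : (V → K4) →ₗ[F2] F2)
    (hc : ∀ y ∈ MM L a b, ∀ x ∈ MM L a b, be a b y x = c y * c x)
    (hc2 : ∀ x ∈ DD L a b, c x = 0)
    {z : V → K4} (hz : Mn L a b z) (S : Finset V) (e : V → V) (y : V → V → K4)
    (hS : ∀ w ∈ S, Pr L a b z (e w) w (y w) ∧ be a b z (y w) = 1)
    (hcov : ∀ q w y', Pr L a b z q w y' → be a b z y' = 1 → w ∈ S)
    (hpair : ∀ w ∈ S, c (y w) = 1 → ∃ w' ∈ S, w' ≠ w ∧ c (y w') = 1) :
    ∃ T : V → K4, (∀ v, T v ≠ 0) ∧ (∀ v, T v ≠ b v) ∧ Full L T := by
  classical
  let W : V → V := fun q => if h : ∃ w ∈ S, e w = q then h.choose else q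
  have hW : ∀ w ∈ S, W (e w) = w := by
    intro w hw
    have h : ∃ w' ∈ S, e w' = e w := ⟨w, hw, rfl⟩
    have h1 : W (e w) = h.choose := dif_pos h
    obtain ⟨h2, h3⟩ := h.choose_spec
    rw [h1]
    have h4 := (hS _ h2).1
    rw [h3] at h4
    exact h4.uniq hz (hS w hw).1
  refine build hL ha hb hfull hU hi c hc hc2 hz (S.image e) (fun q => y (W q)) W ?_ ?_ ?_ ?_ ?_
  · intro q hq
    obtain ⟨w, hw, rfl⟩ := Finset.mem_image.1 hq
    show Pr L a b z (e w) (W (e w)) (y (W (e w)))
    rw [hW w hw]; exact (hS w hw).1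
  · intro q hq
    obtain ⟨w, hw, rfl⟩ := Finset.mem_image.1 hq
    show be a b z (y (W (e w))) = 1
    rw [hW w hw]; exact (hS w hw).2
  · intro q hq q' hq' h
    obtain ⟨w, hw, rfl⟩ := Finset.mem_image.1 hq
    obtain ⟨w', hw', rfl⟩ := Finset.mem_image.1 hq'
    rw [hW w hw, hW w' hw'] at h
    rw [h]
  · intro q w y' h1 h2
    have hw := hcov q w y' h1 h2
    exact ⟨e w, Finset.mem_image_of_mem _ hw, hW w hw⟩
  · intro q hq h
    obtain ⟨w, hw, rfl⟩ := Finset.mem_image.1 hq
    have h' : c (y (W (e w))) = 1 := h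
    rw [hW w hw] at h'
    obtain ⟨w', hw', hne, h1⟩ := hpair w hw h'
    refine ⟨e w', Finset.mem_image_of_mem _ hw', ?_, ?_⟩
    · intro h2
      apply hne
      rw [← hW w hw, ← hW w' hw', h2]
    · show c (y (W (e w'))) = 1
      rw [hW w' hw']; exact h1

/-- obstruction -/
def Ob (L : Submodule F2 (V → K4)) (a b : V → K4) (c : (V → K4) →ₗ[F2] F2) (z : V → K4)
    (w : V) : Prop :=
  (∃ p y, Pr L a b z p w y ∧ be a b z y = 1) ∧
  ∀ q w' y, Pr L a b z q w' y → be a b z y = 1 → (c y = 1 ↔ w' = w)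

theorem picks {L : Submodule F2 (V → K4)} (hL : Lag L) {a b : V → K4}
    (ha : ∀ v, a v ≠ 0) (hb : ∀ v, b v ≠ 0) (hfull : Full L a) (hU : ∃ v, a v = b v)
    (hi : ∀ x ∈ L, (∀ v, a v = b v → om (x v) (a v) = 0) ∨ (∀ v, a v = b v → om (x v) (a v) = 1))
    (c : (V → K4) →ₗ[F2] F2)
    (hc : ∀ y ∈ MM L a b, ∀ x ∈ MM L a b, be a b y x = c y * c x)
    (hc2 : ∀ x ∈ DD L a b, c x = 0)
    {z : V → K4} (hz : Mn L a b z) :
    (∃ T : V → K4, (∀ v, T v ≠ 0) ∧ (∀ v, T v ≠ b v) ∧ Full L T) ∨ ∃ w, Ob L a b c z w := by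
  classical
  let R : V → V → (V → K4) → Prop := fun q w y => Pr L a b z q w y ∧ be a b z y = 1
  let S : Finset V := univ.filter (fun w => ∃ q y, R q w y)
  have hSm : ∀ w, w ∈ S ↔ ∃ q y, R q w y := fun w => by simp [S]
  have hch : ∀ w, ∃ (q : V) (y : V → K4), w ∈ S →
      R q w y ∧ (c y = 1 → ∀ q' y', R q' w y' → c y' = 1) := by
    intro w
    by_cases hw : w ∈ S
    · by_cases h0 : ∃ q y, R q w y ∧ c y = 0
      · obtain ⟨q, y, h1, h2⟩ := h0
        exact ⟨q, y, fun _ => ⟨h1, fun h3 => absurd (h2.symm.trans h3) (by decide)⟩⟩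
      · push Not at h0
        obtain ⟨q, y, h1⟩ := (hSm w).1 hw
        exact ⟨q, y, fun _ => ⟨h1, fun _ q' y' h2 => (f2_ne_zero _).1 (h0 q' y' h2)⟩⟩
    · exact ⟨w, 0, fun h => absurd h hw⟩
  choose e0 y0 hey using hch
  by_cases hO : ∀ w ∈ S, c (y0 w) = 1 → ∃ w' ∈ S, w' ≠ w ∧ c (y0 w') = 1
  · left
    exact build_sel hL ha hb hfull hU hi c hc hc2 hz S e0 y0 (fun w hw => (hey w hw).1)
      (fun q w y' h1 h2 => (hSm w).2 ⟨q, y', h1, h2⟩) hO
  · push Not at hO
    obtain ⟨w1, hw1, hc1, hoth⟩ := hO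
    by_cases h2 : ∃ w2 q2 y2, w2 ≠ w1 ∧ R q2 w2 y2 ∧ c y2 = 1
    · left
      obtain ⟨w2, q2, y2, hne, hR, hc3⟩ := h2
      refine build_sel hL ha hb hfull hU hi c hc hc2 hz S (Function.update e0 w2 q2)
        (Function.update y0 w2 y2) ?_ (fun q w y' h1 h2 => (hSm w).2 ⟨q, y', h1, h2⟩) ?_
      · intro w hw
        by_cases hw2 : w = w2
        · subst hw2
          rw [Function.update_self, Function.update_self]
          exact hR
        · rw [Function.update_of_ne hw2, Function.update_of_ne hw2]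
          exact (hey w hw).1
      · intro w hw _
        by_cases hw2 : w = w2
        · refine ⟨w1, hw1, ?_, ?_⟩
          · rw [hw2]; exact hne.symm
          · rw [Function.update_of_ne hne.symm]; exact hc1
        · refine ⟨w2, (hSm w2).2 ⟨q2, y2, hR⟩, Ne.symm hw2, ?_⟩
          rw [Function.update_self]; exact hc3
    · right
      push Not at h2
      refine ⟨w1, ⟨e0 w1, y0 w1, (hey w1 hw1).1.1, (hey w1 hw1).1.2⟩, ?_⟩
      intro q w' y h3 h4
      constructor
      · intro h5
        by_contra h6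
        exact h2 w' q y h6 ⟨h3, h4⟩ h5
      · rintro rfl
        exact (hey w' hw1).2 hc1 q y ⟨h3, h4⟩

/-- rebasing a minimal element -/
theorem Mn.rebase {L : Submodule F2 (V → K4)} {a b z y : V → K4} {p w : V} (hz : Mn L a b z)
    (h : Pr L a b z p w y) : Mn L a b (z + y) := by
  have h1 := hz.1.add_MM h.2.2.2.1
  refine ⟨h1, fun z' hz' => le_trans ?_ (hz.2 z' hz')⟩
  have h2 : sp a (z + y) ⊆ insert p ((sp a z).erase w) := by
    intro v hv
    rw [mem_sp, Pi.add_apply, om_add_left, ind h] at hv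
    rw [Finset.mem_insert, Finset.mem_erase]
    by_cases e1 : v = p
    · exact Or.inl e1
    · right
      rw [if_neg e1, zero_add] at hv
      by_cases e2 : v = w
      · rw [if_pos e2, e2, h.2.1] at hv
        exact absurd hv (by decide)
      · rw [if_neg e2, add_zero] at hv
        exact ⟨e2, mem_sp.2 hv⟩
  have h3 := Finset.card_le_card h2
  have h4 := Finset.card_insert_le p ((sp a z).erase w)
  have h5 := Finset.card_erase_add_one (mem_sp.2 h.2.1 : w ∈ sp a z)
  omega

theorem side {L : Submodule F2 (V → K4)} (hL : Lag L) {a b : V → K4}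
    (ha : ∀ v, a v ≠ 0) (hb : ∀ v, b v ≠ 0) (hfull : Full L a) (hU : ∃ v, a v = b v)
    (hi : ∀ x ∈ L, (∀ v, a v = b v → om (x v) (a v) = 0) ∨ (∀ v, a v = b v → om (x v) (a v) = 1))
    (hMC : ∃ z, MC L a b z)
    (c : (V → K4) →ₗ[F2] F2)
    (hc : ∀ y ∈ MM L a b, ∀ x ∈ MM L a b, be a b y x = c y * c x)
    (hc2 : ∀ x ∈ DD L a b, c x = 0) :
    (∃ T : V → K4, (∀ v, T v ≠ 0) ∧ (∀ v, T v ≠ b v) ∧ Full L T) ∨
    ∃ (z y y' : V → K4) (p w p' w' : V), MC L a b z ∧ Pr L a b z p w y ∧ Pr L a b z p' w' y' ∧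
      c y = 1 ∧ c y' = 1 ∧ be a b z y = 1 ∧ be a b z y' = 0 ∧ w ≠ w' ∧ p ≠ p' := by
  obtain ⟨z, hz⟩ := exists_Mn hMC
  rcases picks hL ha hb hfull hU hi c hc hc2 hz with h | ⟨w, hob⟩
  · exact Or.inl h
  obtain ⟨⟨p, y, hP, hy1⟩, hob2⟩ := hob
  have hcy : c y = 1 := (hob2 p w y hP hy1).2 rfl
  have hz' := hz.rebase hP
  rcases picks hL ha hb hfull hU hi c hc hc2 hz' with h | ⟨w', hob'⟩
  · exact Or.inl h
  right
  obtain ⟨⟨p', y', hP', hy1'⟩, hob2'⟩ := hob'
  have hcy' : c y' = 1 := (hob2' p' w' y' hP' hy1').2 rfl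
  have hzy' : be a b z y' = 0 := by
    have h1 := hy1'
    rw [be_add_left, hc y hP.2.2.2.1 y' hP'.2.2.2.1, hcy, hcy'] at h1
    have : ∀ x : F2, x + 1 * 1 = 1 → x = 0 := by decide
    exact this _ h1
  have hz'v : ∀ v, om ((z + y) v) (a v) = om (z v) (a v) +
      ((if v = p then 1 else 0) + (if v = w then 1 else 0)) := by
    intro v
    rw [Pi.add_apply, om_add_left, ind hP]
  have hpw := hP.ne
  have hz'p : om ((z + y) p) (a p) = 1 := by
    rw [hz'v, hP.1, if_pos rfl, if_neg hpw]; decide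
  have hz'w : om ((z + y) w) (a w) = 0 := by
    rw [hz'v, hP.2.1, if_pos rfl, if_neg (Ne.symm hpw)]; decide
  have hp'p : p ≠ p' := by
    rintro rfl
    exact absurd (hz'p.symm.trans hP'.1) (by decide)
  have hw'w : w ≠ w' := by
    rintro rfl
    exact absurd (hz'w.symm.trans hP'.2.1) (by decide)
  have hw'p : w' ≠ p := by
    rintro rfl
    by_cases hp'w : p' = w
    · subst hp'w
      -- same pair
      have h1 : be a b (z + y) y' = be a b (z + y) y := by
        apply be_congr
        intro v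
        rw [ind hP', ind hP, add_comm]
      rw [h1, be_add_left, hy1, hc y hP.2.2.2.1 y hP.2.2.2.1, hcy] at hy1'
      exact absurd hy1' (by decide)
    · have h1 : Pr L a b z p' w (y + y') := by
        refine ⟨?_, hP.2.1, hP.2.2.1, Submodule.add_mem _ hP.2.2.2.1 hP'.2.2.2.1, ?_⟩
        · have h2 := hP'.1
          rw [hz'v, if_neg (Ne.symm hp'p), if_neg hp'w, add_zero, add_zero] at h2
          exact h2
        · intro v
          rw [Pi.add_apply, om_add_left, ind hP, ind hP']
          by_cases e1 : v = w'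
          · subst e1
            rw [if_pos rfl, if_neg hpw, if_neg hp'p]
            constructor
            · intro h; exact absurd h (by decide)
            · rintro (h | h)
              · exact absurd h hp'p
              · exact absurd h hpw
          · by_cases e2 : v = w
            · subst e2
              rw [if_neg e1, if_pos rfl, if_neg (Ne.symm hp'w)]
              constructor
              · intro _; exact Or.inr rfl
              · intro _; decide
            · by_cases e3 : v = p'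
              · subst e3
                rw [if_neg e1, if_neg e2, if_pos rfl]
                constructor
                · intro _; exact Or.inl rfl
                · intro _; decide
              · rw [if_neg e1, if_neg e2, if_neg e3]
                constructor
                · intro h; exact absurd h (by decide)
                · rintro (h | h)
                  · exact absurd h e3
                  · exact absurd h e2
      have h2 : be a b z (y + y') = 1 := by
        rw [be_add_right, hy1, hzy', add_zero]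
      have h3 := (hob2 p' w (y + y') h1 h2).2 rfl
      rw [map_add, hcy, hcy'] at h3
      exact absurd h3 (by decide)
  have hzw' : om (z w') (a w') = 1 := by
    have h1 := hP'.2.1
    rw [hz'v, if_neg hw'p, if_neg (Ne.symm hw'w), add_zero, add_zero] at h1
    exact h1
  have hp'w : p' ≠ w := by
    rintro rfl
    -- both ends in the support of `z`
    have h1 := hz.1.add_MM hP'.2.2.2.1
    have h2 : sp a (z + y') ⊆ sp a z := by
      intro v hv
      rw [mem_sp, Pi.add_apply, om_add_left, ind hP'] at hv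
      rw [mem_sp]
      by_cases e1 : v = p'
      · rw [e1]; exact hP.2.1
      · by_cases e2 : v = w'
        · rw [e2]; exact hzw'
        · rw [if_neg e1, if_neg e2, add_zero, add_zero] at hv
          exact hv
    have h3 := hz.sub h1 h2
    have h4 : w' ∈ sp a (z + y') := by rw [h3]; exact mem_sp.2 hzw'
    rw [mem_sp, Pi.add_apply, om_add_left, ind hP', hzw', if_pos rfl, if_neg (Ne.symm hP'.ne)] at h4
    exact absurd h4 (by decide)
  have hzp' : om (z p') (a p') = 0 := by
    have h1 := hP'.1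
    rw [hz'v, if_neg (Ne.symm hp'p), if_neg hp'w, add_zero, add_zero] at h1
    exact h1
  exact ⟨z, y, y', p, w, p', w', hz.1, hP, ⟨hzp', hzw', hP'.2.2.1, hP'.2.2.2.1, hP'.2.2.2.2⟩,
    hcy, hcy', hy1, hzy', hw'w, hp'p⟩

theorem MM_swap (L : Submodule F2 (V → K4)) (a b : V → K4) : MM L b a = MM L a b := by
  ext x
  constructor
  · rintro ⟨h1, h2⟩
    exact ⟨h1, fun v hv => by rw [hv]; exact h2 v hv.symm⟩
  · rintro ⟨h1, h2⟩
    exact ⟨h1, fun v hv => by rw [hv]; exact h2 v hv.symm⟩

theorem DD_swap (L : Submodule F2 (V → K4)) (a b : V → K4) : DD L b a = DD L a b := sup_comm _ _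

theorem two {L : Submodule F2 (V → K4)} (hL : Lag L) (hcl : Clean L) {a b : V → K4}
    (ha : ∀ v, a v ≠ 0) (hb : ∀ v, b v ≠ 0) (hfa : Full L a) (hfb : Full L b)
    (hU : ∃ v, a v = b v)
    (hi : ∀ x ∈ L, (∀ v, a v = b v → om (x v) (a v) = 0) ∨ (∀ v, a v = b v → om (x v) (a v) = 1))
    (hii : ∀ x ∈ MM L a b, ∀ y ∈ MM L a b, x ∈ DD L a b ∨ y ∈ DD L a b ∨ x + y ∈ DD L a b) :
    ∃ T T' : V → K4, (∀ v, T v ≠ 0) ∧ (∀ v, T' v ≠ 0) ∧ (∀ v, T v ≠ T' v) ∧
      Full L T ∧ Full L T' := by
  obtain ⟨c, hc, hc2, hc3⟩ := exists_c hL ha hb hii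
  have hMC : ∃ z, MC L a b z := by
    obtain ⟨u, hu⟩ := hU
    obtain ⟨z, hz, hz1⟩ := exists_one hL hcl u (a u) (ha u)
    refine ⟨z, hz, ?_⟩
    rcases hi z hz with h | h
    · have := h u hu
      rw [hz1] at this
      exact absurd this (by decide)
    · exact h
  rcases side hL ha hb hfa hU hi hMC c hc hc2 with ⟨T, h1, h2, h3⟩ | h1
  · exact ⟨T, b, h1, hb, h2, h3, hfb⟩
  have hU' : ∃ v, b v = a v := by
    obtain ⟨u, hu⟩ := hU; exact ⟨u, hu.symm⟩
  have hi' : ∀ x ∈ L, (∀ v, b v = a v → om (x v) (b v) = 0) ∨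
      (∀ v, b v = a v → om (x v) (b v) = 1) := by
    intro x hx
    rcases hi x hx with h | h
    · left; intro v hv; rw [hv]; exact h v hv.symm
    · right; intro v hv; rw [hv]; exact h v hv.symm
  have hMCs : ∀ z, MC L a b z ↔ MC L b a z := by
    intro z
    constructor
    · rintro ⟨h1, h2⟩
      exact ⟨h1, fun v hv => by rw [hv]; exact h2 v hv.symm⟩
    · rintro ⟨h1, h2⟩
      exact ⟨h1, fun v hv => by rw [hv]; exact h2 v hv.symm⟩
  rcases side hL hb ha hfb hU' hi' (by obtain ⟨z, hz⟩ := hMC; exact ⟨z, (hMCs z).1 hz⟩) c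
    (by
      intro y hy x hx
      rw [MM_swap] at hy hx
      rw [be_swap, hc x hx y hy, mul_comm])
    (by rw [DD_swap]; exact hc2) with ⟨T, h1, h2, h3⟩ | h2
  · exact ⟨a, T, ha, h1, fun v => Ne.symm (h2 v), hfa, h3⟩
  exfalso
  obtain ⟨z, y, y', p, w, p', w', hz, hP, hP', hcy, hcy', hy1, hy1', hww', hpp'⟩ := h1
  obtain ⟨ζ, η, η', q, r, q', r', hζ, hQ, hQ', hcη, hcη', _, _, hrr', hqq'⟩ := h2
  have hηM : η ∈ MM L a b := by rw [← MM_swap]; exact hQ.2.2.2.1
  have hηM' : η' ∈ MM L a b := by rw [← MM_swap]; exact hQ'.2.2.2.1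
  have hyM := hP.2.2.2.1
  have hyM' := hP'.2.2.2.1
  have hD : y + y' ∈ DD L a b :=
    hc3 y hyM hcy _ (Submodule.add_mem _ hyM hyM') (by rw [map_add, hcy, hcy']; decide)
  have hzζ : z + ζ ∈ MM L a b := hz.add_MC ((hMCs ζ).2 hζ)
  have h1 := be_D hL ha hb hD hzζ
  rw [be_add_left, be_add_right, be_add_right, hy1, hy1', hP.be_eq hz, hP'.be_eq hz] at h1
  have h2 : om (ζ p) (b p) + om (ζ w) (b w) + (om (ζ p') (b p') + om (ζ w') (b w')) = 1 := by
    have : ∀ x : F2, 1 + 0 + x = 0 → x = 1 := by decide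
    exact this _ h1
  -- membership
  have hηv : ∀ v, om (η v) (b v) = (if v = q then 1 else 0) + (if v = r then 1 else 0) :=
    fun v => ind hQ v
  have hηv' : ∀ v, om (η' v) (b v) = (if v = q' then 1 else 0) + (if v = r' then 1 else 0) :=
    fun v => ind hQ' v
  have e1 := hc η hηM y hyM
  have e2 := hc η hηM y' hyM'
  have e3 := hc η' hηM' y hyM
  have e4 := hc η' hηM' y' hyM'
  rw [hcη, hcy, hP.be_eq hz, hηv, hηv] at e1
  rw [hcη, hcy', hP'.be_eq hz, hηv, hηv] at e2
  rw [hcη', hcy, hP.be_eq hz, hηv', hηv'] at e3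
  rw [hcη', hcy', hP'.be_eq hz, hηv', hηv'] at e4
  have hqr := hQ.ne
  have hqr' := hQ'.ne
  have hqr2 : q ≠ r' := by
    rintro rfl; exact absurd (hQ.1.symm.trans hQ'.2.1) (by decide)
  have hqr3 : q' ≠ r := by
    rintro rfl; exact absurd (hQ'.1.symm.trans hQ.2.1) (by decide)
  have hpw' : p ≠ w' := by
    rintro rfl; exact absurd (hP.1.symm.trans hP'.2.1) (by decide)
  have hp'w : p' ≠ w := by
    rintro rfl; exact absurd (hP'.1.symm.trans hP.2.1) (by decide)
  set Y : Finset V := {q, r, q', r'} with hY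
  have hmem : ∀ v w : V,
      ((if v = q then (1 : F2) else 0) + (if v = r then 1 else 0) +
        ((if w = q then 1 else 0) + (if w = r then 1 else 0)) = 1 * 1) →
      ((if v = q' then (1 : F2) else 0) + (if v = r' then 1 else 0) +
        ((if w = q' then 1 else 0) + (if w = r' then 1 else 0)) = 1 * 1) → v ∈ Y ∧ w ∈ Y := by
    intro v w h3 h4
    rw [hY]
    simp only [Finset.mem_insert, Finset.mem_singleton]
    by_cases v1 : v = q
    · have v2 : v ≠ q' := by rw [v1]; exact hqq'
      have v3 : v ≠ r' := by rw [v1]; exact hqr2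
      refine ⟨Or.inl v1, ?_⟩
      rw [if_neg v2, if_neg v3] at h4
      by_cases w1 : w = q'
      · exact Or.inr (Or.inr (Or.inl w1))
      · by_cases w2 : w = r'
        · exact Or.inr (Or.inr (Or.inr w2))
        · rw [if_neg w1, if_neg w2] at h4; exact absurd h4 (by decide)
    · by_cases v2 : v = r
      · have v3 : v ≠ q' := by rw [v2]; exact Ne.symm hqr3
        have v4 : v ≠ r' := by rw [v2]; exact hrr'
        refine ⟨Or.inr (Or.inl v2), ?_⟩
        rw [if_neg v3, if_neg v4] at h4
        by_cases w1 : w = q'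
        · exact Or.inr (Or.inr (Or.inl w1))
        · by_cases w2 : w = r'
          · exact Or.inr (Or.inr (Or.inr w2))
          · rw [if_neg w1, if_neg w2] at h4; exact absurd h4 (by decide)
      · rw [if_neg v1, if_neg v2] at h3
        have hw : w = q ∨ w = r := by
          by_cases w1 : w = q
          · exact Or.inl w1
          · by_cases w2 : w = r
            · exact Or.inr w2
            · rw [if_neg w1, if_neg w2] at h3; exact absurd h3 (by decide)
        have hw2 : w ≠ q' ∧ w ≠ r' := by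
          rcases hw with h | h
          · rw [h]; exact ⟨hqq', hqr2⟩
          · rw [h]; exact ⟨Ne.symm hqr3, hrr'⟩
        rw [if_neg hw2.1, if_neg hw2.2] at h4
        have hv : v = q' ∨ v = r' := by
          by_cases w1 : v = q'
          · exact Or.inl w1
          · by_cases w2 : v = r'
            · exact Or.inr w2
            · rw [if_neg w1, if_neg w2] at h4; exact absurd h4 (by decide)
        refine ⟨?_, ?_⟩
        · rcases hv with h | h
          · exact Or.inr (Or.inr (Or.inl h))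
          · exact Or.inr (Or.inr (Or.inr h))
        · rcases hw with h | h
          · exact Or.inl h
          · exact Or.inr (Or.inl h)
  obtain ⟨m1, m2⟩ := hmem p w e1 e3
  obtain ⟨m3, m4⟩ := hmem p' w' e2 e4
  have hXY : ({p, w, p', w'} : Finset V) = Y := by
    apply Finset.eq_of_subset_of_card_le
    · intro v hv
      simp only [Finset.mem_insert, Finset.mem_singleton] at hv
      rcases hv with rfl | rfl | rfl | rfl
      · exact m1
      · exact m2
      · exact m3
      · exact m4
    · have c1 : ({p, w, p', w'} : Finset V).card = 4 := by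
        rw [Finset.card_insert_of_notMem, Finset.card_insert_of_notMem,
          Finset.card_insert_of_notMem, Finset.card_singleton]
        · simp only [Finset.mem_singleton]; exact hP'.ne
        · simp only [Finset.mem_insert, Finset.mem_singleton]
          rintro (h | h)
          · exact hp'w h.symm
          · exact hww' h
        · simp only [Finset.mem_insert, Finset.mem_singleton]
          rintro (h | h | h)
          · exact hP.ne h
          · exact hpp' h
          · exact hpw' h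
      rw [c1, hY]
      exact Finset.card_le_four
  have h5 : ∑ v ∈ ({p, w, p', w'} : Finset V), om (ζ v) (b v) = 1 := by
    rw [Finset.sum_insert, Finset.sum_insert, Finset.sum_insert, Finset.sum_singleton, ← h2]
    · ring
    · simp only [Finset.mem_singleton]; exact hP'.ne
    · simp only [Finset.mem_insert, Finset.mem_singleton]
      rintro (h | h)
      · exact hp'w h.symm
      · exact hww' h
    · simp only [Finset.mem_insert, Finset.mem_singleton]
      rintro (h | h | h)
      · exact hP.ne h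
      · exact hpp' h
      · exact hpw' h
  rw [hXY, hY, Finset.sum_insert, Finset.sum_insert, Finset.sum_insert, Finset.sum_singleton,
    hQ.1, hQ.2.1, hQ'.1, hQ'.2.1] at h5
  · exact absurd h5 (by decide)
  · simp only [Finset.mem_singleton]; exact hqr'
  · simp only [Finset.mem_insert, Finset.mem_singleton]
    rintro (h | h)
    · exact hqr3 h.symm
    · exact hrr' h
  · simp only [Finset.mem_insert, Finset.mem_singleton]
    rintro (h | h | h)
    · exact hqr h
    · exact hqq' h
    · exact hqr2 h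

/-- the abstract theorem -/
theorem lag_main {L : Submodule F2 (V → K4)} (hL : Lag L) (hcl : Clean L) (a b : V → K4)
    (ha : ∀ v, a v ≠ 0) (hb : ∀ v, b v ≠ 0) (hab : ∀ v, a v ≠ b v)
    (hd : Fintype.card V ≤ finrank F2 (LT L a) + finrank F2 (LT L b) + 3) :
    ∃ T T' : V → K4, (∀ v, T v ≠ 0) ∧ (∀ v, T' v ≠ 0) ∧ (∀ v, T v ≠ T' v) ∧
      Full L T ∧ Full L T' := by
  have h0 : (Ag a b).card = 0 := by
    rw [Finset.card_eq_zero, Finset.eq_empty_iff_forall_notMem]
    intro v hv
    exact hab v (mem_Ag.1 hv)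
  obtain ⟨a', b', ha', hb', hfa, hfb, hd'⟩ := full_pair hL (4 * Fintype.card V) a b ha hb
    (by rw [h0]; omega) (by omega)
  by_cases hU : ∃ v, a' v = b' v
  · obtain ⟨h1, h2⟩ := structure_pair hL hcl a' b' ha' hb' hU hd'
    exact two hL hcl ha' hb' hfa hfb hU h1 h2
  · push Not at hU
    exact ⟨a', b', ha', hb', hU, hfa, hfb⟩

end

end Pool.Agent.Helper45.SE
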